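import Mathlib
import Pool.Agent.Y696.Jac2

/-!
# The number of points of `y² + d y = x³` over a finite field of the Eisenstein integers
-/

set_option autoImplicit false

namespace Pool.Agent.Y696.CTK

open Pool.Agent.Y696 Pool.Agent.W192.HK

section field

variable {k : Type} [Field k] [Fintype k] (ρ : eis →+* k)

/-- the Jacobi sum and the number of points -/
theorem card_points_d {χ : MulChar k eis} (h : χ ^ 3 = 1) (h3 : (3 : k) ≠ 0)
    (hρ : ∀ x : k, x ≠ 0 → ρ (χ x) = x ^ ((Fintype.card k - 1) / 3)) {d : k} (hd : d ≠ 0) :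
    ((Nat.card {p : k × k // p.2 ^ 2 + d * p.2 = p.1 ^ 3} : ℕ) : eis) =
      Fintype.card k + χ d ^ 2 * jacobiSum χ χ + χ d * jacobiSum χ⁻¹ χ⁻¹ := by
  classical
  have e1 : Nat.card {p : k × k // p.2 ^ 2 + d * p.2 = p.1 ^ 3} =
      ∑ y : k, Nat.card {x : k // x ^ 3 = y ^ 2 + d * y} := by
    rw [← Nat.card_sigma]
    refine Nat.card_congr
      { toFun := fun p => ⟨p.1.2, p.1.1, p.2.symm⟩
        invFun := fun p => ⟨(p.2.1, p.1), p.2.2.symm⟩
        left_inv := fun p => rfl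
        right_inv := fun p => rfl }
  have hinv : ∀ x : k, χ⁻¹ x = χ x ^ 2 := by
    intro x
    have : χ⁻¹ = χ ^ 2 := by
      rw [inv_eq_iff_mul_eq_one, ← pow_succ', h]
    rw [this, MulChar.pow_apply' _ two_ne_zero]
  have hval : ∀ t : k, χ ((-d * t) ^ 2 + d * (-d * t)) = χ d ^ 2 * (χ t * χ (1 - t)) := by
    intro t
    have e2 : (-d * t) ^ 2 + d * (-d * t) = -1 * (d ^ 2 * (t * (1 - t))) := by ring
    rw [e2, map_mul, chi_neg h, one_mul, map_mul, map_mul, map_pow]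
  have hd4 : (χ d ^ 2) ^ 2 = χ d := by
    linear_combination χ d * chi_one h hd
  rw [e1]
  push_cast
  simp only [card_cube ρ h h3 hρ]
  have hb : ∀ f : k → eis, ∑ y : k, f y = ∑ t : k, f (-d * t) := fun f =>
    (Equiv.sum_comp (Equiv.mulLeft₀ (-d) (neg_ne_zero.2 hd)) f).symm
  rw [Finset.sum_add_distrib, Finset.sum_add_distrib]
  congr 1
  · congr 1
    · simp
    · unfold jacobiSum
      rw [Finset.mul_sum, hb]
      exact Finset.sum_congr rfl fun t _ => hval t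
  · unfold jacobiSum
    rw [Finset.mul_sum, hb]
    refine Finset.sum_congr rfl fun t _ => ?_
    rw [hval, hinv, hinv, mul_pow, hd4, mul_pow]

omit [Fintype k] in
/-- the value of the character -/
theorem chi_val {χ : MulChar k eis} (h : χ ^ 3 = 1) (h3 : (3 : k) ≠ 0) {m : ℕ}
    (hρ : ∀ x : k, x ≠ 0 → ρ (χ x) = x ^ m) {d : k} (hd : d ≠ 0) {x : eis} (hx : ρ x = d)
    {c : ℕ} (hc3 : c < 3) (hc : ρ (x ^ m - omr ^ c) = 0) : χ d = omr ^ c := by
  obtain ⟨r1, r2⟩ := rho_om ρ h3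
  have hf : Fact (Nat.Prime 3) := ⟨Nat.prime_three⟩
  have hprim : IsPrimitiveRoot (ρ omr) 3 :=
    IsPrimitiveRoot.iff_orderOf.2 (orderOf_eq_prime (by linear_combination (ρ omr - 1) * r1) r2)
  obtain ⟨i, hi, hi'⟩ := prim_root_om.eq_pow_of_pow_eq_one (chi_one h hd)
  rw [← hi']
  have h1 := hρ d hd
  rw [← hi', map_pow] at h1
  rw [map_sub, map_pow, map_pow, hx, ← h1, sub_eq_zero] at hc
  rw [hprim.pow_inj hi hc3 hc]

theorem card_aff_d (h3 : (3 : k) ≠ 0) {π : eis} (hπ : Prime π) (hπ1 : π - 1 ∈ (sp 3 : Ideal eis))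
    (hker : ∀ x, ρ x = 0 ↔ π ∣ x) (hq : ((Fintype.card k : ℕ) : eis) = π * cj π)
    {x : eis} (hx : ρ x ≠ 0) {c : ℕ} (hc3 : c < 3)
    (hc : π ∣ x ^ ((Fintype.card k - 1) / 3) - omr ^ c) :
    ((Nat.card {p : k × k // p.2 ^ 2 + ρ x * p.2 = p.1 ^ 3} : ℕ) : eis) =
      Fintype.card k - omr ^ (2 * c) * π - omr ^ c * cj π := by
  obtain ⟨χ, h, h1, hρ⟩ := exists_chi ρ h3
  have h4 := card_points_d ρ h h3 hρ hx
  obtain ⟨h5, h6⟩ := jac_eq ρ h3 h h1 hρ hπ hπ1 hker (f := 1) (by rw [pow_one]; exact hq)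
  rw [h5, h6, chi_val ρ h h3 hρ hx rfl hc3 ((hker _).2 hc)] at h4
  rw [h4]
  ring

end field

end Pool.Agent.Y696.CTK
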