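import Mathlib
import Pool.Agent.Y703.CT.StmC
import Pool.Agent.Y703.CT.StmE
import Pool.Agent.Y696.Stm
import Pool.Agent.Y696.Ell
import Pool.Agent.TH841.NF.ShaN

/-!
# Project CTK: cubic twists over `ℚ(ω)`, statements

`E_D : y² + D y = x³` over a field `K` with `j : Ei ≃+* 𝓞 K`, where
`Ei = Pool.Agent.Y692.QS.Ei = QuadraticAlgebra ℤ (-1) (-1)` are the Eisenstein integers.
-/

set_option autoImplicit false
set_option linter.unusedVariables false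

open scoped Classical

namespace Pool.Agent.Y696.CTK

open NumberField IsDedekindDomain WeierstrassCurve WithZero
open Pool.Agent.Y692.QS (Ei w nr toC)
open Pool.Agent.Y715.T.RecG (Pq)
open Pool.Agent.Y703.CT
open Pool.Agent.Y696 (NonsingRed Cur)
open Pool.Agent.Y715.T.Gi Pool.Agent.Y715.T.Nr Pool.Agent.Y715.T.Df Pool.Agent.Y715.T.Ell
open Pool.Agent.TH841.NF.D (Sha)

/-- the curve `y² + D y = x³` -/
def ED {K : Type} [Field K] (D : K) : WeierstrassCurve K := ⟨0, 0, D, 0, 0⟩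

/-! ### The final statement -/

section final
variable {K : Type} [Field K] [NumberField K]

/-- the squarefree `D = 1` modulo `3` with norm different from `1` modulo `9` -/
def ClsK (D : 𝓞 K) : Prop :=
  (3 : 𝓞 K) ∣ D - 1 ∧ Squarefree D ∧ ¬ (9 : ℤ) ∣ Algebra.norm ℤ D - 1

/-- `c v` is the Tamagawa number at `v` of the curve `W`, given by an equation that is minimal at
every finite place: the index of the group of the points of nonsingular reduction -/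
def IsTam (W : WeierstrassCurve K) (c : HeightOneSpectrum (𝓞 K) → ℕ) : Prop :=
  (∀ v : HeightOneSpectrum (𝓞 K),
    IsMinimal (v.adicCompletionIntegers K) (W.baseChange (v.adicCompletion K)) ∧
    ∃ H : AddSubgroup (W.baseChange (v.adicCompletion K)).toAffine.Point,
      (∀ P, P ∈ H ↔ NonsingRed Valued.v (W.baseChange (v.adicCompletion K)) P) ∧
      H.index = c v) ∧
  {v | c v ≠ 1}.Finite

/-- (i), and the `3`-parts of (ii) and (iii), for `y² + D y = x³` over `K` -/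
def Law (D : 𝓞 K) : Prop :=
  Finite (ED (D : K)).toAffine.Point ∧
  padicValNat 3 (Nat.card (ED (D : K)).toAffine.Point) = 1 ∧
  (∀ (n : ℕ) (x : Sha (ED (D : K))), 3 ^ n • x = 0 → x = 0) ∧
  ∃ (Lf : ℂ → ℂ) (c : HeightOneSpectrum (𝓞 K) → ℕ),
    Differentiable ℂ Lf ∧
    (∀ s : ℂ, 3 / 2 < s.re →
      LSeriesSummable ((fun n : ℤ => (n : ℂ)) ∘ (ED (D : K)).LFunction) s ∧
        Lf s = (ED (D : K)).LSeries s) ∧
    Lf 1 ≠ 0 ∧
    IsTam (ED (D : K)) c ∧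
    ∀ σ : K →+* ℂ, (∃ Λ : PeriodPair, Λ.g₂ = 0 ∧ Λ.g₃ = -(σ D) ^ 2) ∧
      ∀ Λ : PeriodPair, Λ.g₂ = 0 → Λ.g₃ = -(σ D) ^ 2 →
        ∀ (Γ : Type) [LinearOrderedCommGroupWithZero Γ] (v : Valuation ℂ Γ), v 3 < 1 →
          v (Lf 1 * (Real.sqrt |(discr K : ℝ)| : ℝ) *
            (Nat.card (ED (D : K)).toAffine.Point : ℂ) ^ 2 /
            (((2 * |((starRingEnd ℂ) Λ.ω₁ * Λ.ω₂).im| : ℝ) : ℂ) * ((∏ᶠ w, c w : ℕ) : ℂ))) = 1

end final

/-- T2: the class has positive density, and the law holds for at least `1 / 2 - ε` of it. -/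
def S_T2 : Prop := ∀ (K : Type) [Field K] [NumberField K] [IsCyclotomicExtension {3} ℚ K],
  (∃ c : ℝ, 0 < c ∧ ∃ X₀ : ℕ, ∀ X : ℕ, X₀ ≤ X →
    c * X ≤ ({D : 𝓞 K | Algebra.norm ℤ D ≤ X ∧ ClsK D}.ncard : ℝ)) ∧
  ∀ ε : ℝ, 0 < ε → ∃ X₀ : ℕ, ∀ X : ℕ, X₀ ≤ X →
    (1 / 2 - ε) * ({D : 𝓞 K | Algebra.norm ℤ D ≤ X ∧ ClsK D}.ncard : ℝ) ≤
      ({D : 𝓞 K | Algebra.norm ℤ D ≤ X ∧ ClsK D ∧ Law D}.ncard : ℝ)

/-! ### The parts -/

/-- CTK-JEX: the identification of the ring of integers. -/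
def S_JEX : Prop := ∀ (K : Type) [Field K] [NumberField K] [IsCyclotomicExtension {3} ℚ K],
  (∃ j : Ei ≃+* 𝓞 K, ∀ z : Ei, Algebra.norm ℤ (j z) = nr z) ∧ discr K = -3

/-- CTK-LK: the `L`-function over `K` (helper696). -/
def S_LK : Prop := S_REC → ∀ (K : Type) [Field K] [NumberField K] (j : Ei ≃+* 𝓞 K)
  (J : Type) [Fintype J] (π : J → Ei), Dt π (fun _ => 1) →
    ∀ F, IsHL π (fun _ => -1) F → ∀ s : ℂ, 3 / 2 < s.re →
      LSeriesSummable ((fun n : ℤ => (n : ℂ)) ∘ (ED (j (pD π (fun _ => 1)) : K)).LFunction) s ∧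
        F s * (starRingEnd ℂ) (F ((starRingEnd ℂ) s)) =
          (ED (j (pD π (fun _ => 1)) : K)).LSeries s

/-- CTK-MIN: the equation is minimal. -/
def S_MINK : Prop := ∀ (K : Type) [Field K] [NumberField K] (j : Ei ≃+* 𝓞 K) (D : Ei),
  (3 : Ei) ∣ D - 1 → Squarefree D → ∀ v : HeightOneSpectrum (𝓞 K),
    IsMinimal (v.adicCompletionIntegers K) ((ED (j D : K)).baseChange (v.adicCompletion K))

/-- CTK-E0: the points of nonsingular reduction form a subgroup (port of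
`Pool.Agent.Y809.BSD14.t_E0`, whose `core` is for normed fields, to valuations). -/
def S_E0K : Prop := ∀ (L : Type) [Field L] (v : Valuation L ℤᵐ⁰) (W : WeierstrassCurve L),
  W.Δ ≠ 0 → v W.a₁ ≤ 1 → v W.a₂ ≤ 1 → v W.a₃ ≤ 1 → v W.a₄ ≤ 1 → v W.a₆ ≤ 1 →
    ∃ H : AddSubgroup W.toAffine.Point, ∀ P, P ∈ H ↔ NonsingRed v W P

/-- CTK-TG: good reduction. -/
def S_TGK : Prop := ∀ (L : Type) [Field L] (v : Valuation L ℤᵐ⁰) (D : L), v 3 = 1 → v D = 1 →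
  ∀ P : (ED D).toAffine.Point, NonsingRed v (ED D) P

/-- CTK-TD: type `IV`; `(0, 0)` and `(0, -D)` are in the two other classes. -/
def S_TDK : Prop := ∀ (L : Type) [Field L] (v : Valuation L ℤᵐ⁰) (D : L), v 3 = 1 →
  v D = exp (-1 : ℤ) → ∀ H : AddSubgroup (ED D).toAffine.Point,
    (∀ P, P ∈ H ↔ NonsingRed v (ED D) P) → H.index = 3

/-- CTK-T3: type `IV` with number one or type `I₀*`; with `x = X - 1`, `y = Y + 1` the equation is
`Y² + (D + 2) Y = X³ - 3 X² + 3 X - (D + 2)`; put `X = θ X₁`, then modulo `θ`: `X₁³ - X₁ + c = 0`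
for a point of singular reduction if `m = -1`, and two points with the same `X₁` modulo `θ` have
their difference in `H`, and `2 P ∈ H`; for `m = 1` there is no point of singular reduction. -/
def S_T3K : Prop := ∀ (L : Type) [Field L] (v : Valuation L ℤᵐ⁰) (D θ m : L), θ ^ 2 = -3 →
  v θ = exp (-1 : ℤ) → D = 1 + 3 * m → v m = 1 →
  (∀ x : L, v x ≤ 1 → v x < 1 ∨ v (x - 1) < 1 ∨ v (x + 1) < 1) →
    ∀ H : AddSubgroup (ED D).toAffine.Point,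
      (∀ P, P ∈ H ↔ NonsingRed v (ED D) P) → H.index = 1 ∨ H.index = 2 ∨ H.index = 4

/-- CTK-TAM: the Tamagawa numbers of the curve over `K` (from the previous ones). -/
def S_TAMK : Prop := S_MINK → S_E0K → S_TGK → S_TDK → S_T3K →
  ∀ (K : Type) [Field K] [NumberField K] (j : Ei ≃+* 𝓞 K)
  (J : Type) [Fintype J] (π : J → Ei), Dt π (fun _ => 1) →
  ¬ (9 : ℤ) ∣ nr (pD π (fun _ => 1)) - 1 →
    ∃ c : HeightOneSpectrum (𝓞 K) → ℕ, IsTam (ED (j (pD π (fun _ => 1)) : K)) c ∧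
      ∃ m : ℕ, ¬ 3 ∣ m ∧ ∏ᶠ w, c w = 3 ^ Fintype.card J * m

/-- CTK-PER: the period lattice (helper696). -/
def S_PERK : Prop := ∀ (d u : ℂ), d ≠ 0 → u ^ 3 = d →
  (∃ Λ : PeriodPair, Λ.g₂ = 0 ∧ Λ.g₃ = -d ^ 2) ∧
  ∀ Λ : PeriodPair, Λ.g₂ = 0 → Λ.g₃ = -d ^ 2 → ∃ (L : PeriodPair) (Ω : ℂ), Cur L Ω ∧
    2 * |((starRingEnd ℂ) Λ.ω₁ * Λ.ω₂).im| = Real.sqrt 3 * ‖Ω‖ ^ 2 / ‖u‖ ^ 2

/-- CTK-TRF: transfer of the geometric points, `(x, y) ↦ (x / u², y / u³)`. -/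
def S_TRF : Prop := ∀ (K : Type) [Field K] [NumberField K] (j : Ei ≃+* 𝓞 K) (D : Ei), D ≠ 0 →
  ∃ (e : AlgebraicClosure K ≃+* QB) (i₀ : QB) (hi : i₀ ^ 2 + i₀ + 1 = 0) (u : QB)
    (a : GK i₀ → ZMod 3) (Ψ : Pool.Agent.TH841.SH.D.Pt (ED (j D : K)) (AlgebraicClosure K) ≃+ Pt QB)
    (g : Pool.Agent.TH841.SH.D.Gal K ≃* GK i₀),
    Tw hi D u a ∧ (∀ z : Ei, e (algebraMap K (AlgebraicClosure K) (j z : K)) = ev i₀ hi z) ∧
    Continuous g ∧ Continuous g.symm ∧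
    (∀ (σ : Pool.Agent.TH841.SH.D.Gal K) (x : AlgebraicClosure K), e (σ x) = g σ (e x)) ∧
    (∀ (x y : AlgebraicClosure K) (h), ∃ h', Ψ (Affine.Point.some x y h) =
      Affine.Point.some (e x / u ^ 2) (e y / u ^ 3) h') ∧
    ∀ (σ : Pool.Agent.TH841.SH.D.Gal K)
      (P : Pool.Agent.TH841.SH.D.Pt (ED (j D : K)) (AlgebraicClosure K)),
      Ψ (Pool.Agent.TH841.SH.D.act (ED (j D : K)) σ.toAlgHom P) = act hi a (g σ) (Ψ P)

/-- CTK-MW: the group of points over `K`. -/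
def S_MWT : Prop := S_TRF → ∀ (K : Type) [Field K] [NumberField K] (j : Ei ≃+* 𝓞 K) (D : Ei),
  D ≠ 0 → (∀ (i₀ : QB) (hi : i₀ ^ 2 + i₀ + 1 = 0) (u : QB) (a : GK i₀ → ZMod 3),
      Tw hi D u a → MwK hi a) →
    Finite (ED (j D : K)).toAffine.Point ∧
    padicValNat 3 (Nat.card (ED (j D : K)).toAffine.Point) = 1

/-- CTK-SH: the Tate-Shafarevich group over `K`; see `Pool.Agent.TH841.NF.place_p` and
`Pool.Agent.TH841.NF.bridge` for the places. -/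
def S_SHT : Prop := S_TRF → ∀ (K : Type) [Field K] [NumberField K] (j : Ei ≃+* 𝓞 K) (D : Ei),
  D ≠ 0 → (∀ (i₀ : QB) (hi : i₀ ^ 2 + i₀ + 1 = 0) (u : QB) (a : GK i₀ → ZMod 3),
      Tw hi D u a → ShK hi a) →
    ∀ (n : ℕ) (x : Sha (ED (j D : K))), 3 ^ n • x = 0 → x = 0

/-- CTK-GE: the factorization and the criterion. -/
def S_GE : Prop := ∀ D : Ei, GoodE D → ∃ (n : ℕ) (π : Fin (n + 1) → Ei), Dt π (fun _ => 1) ∧
  D = pD π (fun _ => 1) ∧ Ker π (fun _ => 1)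

end Pool.Agent.Y696.CTK
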