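import Mathlib
import Pool.Agent.Y696.CTK.Stm
import Pool.Agent.Y696.CTK.Cnt
import Pool.Agent.Y696.CT.LQ
import Pool.Agent.Y696.Hss
import Pool.Agent.Y698.Lf
import Pool.Agent.Y715.T.Rs

/-!
# Project CTK, task LK: the local factors of `y² + D y = x³` over `ℚ(ω)`
-/

set_option autoImplicit false
set_option linter.unusedVariables false

namespace Pool.Agent.Y696.CTK

open NumberField IsDedekindDomain WeierstrassCurve
open Pool.Agent.W189.NF (aV eV redMap Ov mem_max_iff finite_res card_res redMap_eq_zero aLoc eLoc)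
open Pool.Agent.H921R2.TatePole (nm two_le_nm)
open Pool.Agent.Y698 (AP min_count v_unit)
open Pool.Agent.Y715.T.Rs (eq0 eq0_coe card_quo)
open Pool.Agent.Y703.CT
open Pool.Agent.Y696.CT
open Pool.Agent.Y692.QS hiding chi
open Pool.Agent.Y715.T.Rec (cs nn)
open Pool.Agent.Y715.T.RecG (Pq cs_spec)
open scoped Classical

lemma ED_map {K L : Type} [Field K] [Field L] (f : K →+* L) (D : K) :
    (ED D).map f = ED (f D) := by
  ext <;> simp [ED]

lemma ED_Δ {K : Type} [Field K] (D : K) : (ED D).Δ = -27 * D ^ 4 := by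
  simp only [ED, WeierstrassCurve.Δ, WeierstrassCurve.b₂, WeierstrassCurve.b₄,
    WeierstrassCurve.b₆, WeierstrassCurve.b₈]
  ring

lemma ED_c₄ {K : Type} [Field K] (D : K) : (ED D).c₄ = 0 := by
  simp only [ED, WeierstrassCurve.c₄, WeierstrassCurve.b₂, WeierstrassCurve.b₄]
  ring

/-- the curve over a ring -/
def EDr {R : Type} [CommRing R] (D : R) : WeierstrassCurve R := ⟨0, 0, D, 0, 0⟩

lemma EDr_map {R L : Type} [CommRing R] [Field L] (f : R →+* L) (D : R) :
    (EDr D).map f = ED (f D) := by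
  ext <;> simp [ED, EDr]

lemma EDr_Δ {R : Type} [CommRing R] (D : R) : (EDr D).Δ = -27 * D ^ 4 := by
  simp only [EDr, WeierstrassCurve.Δ, WeierstrassCurve.b₂, WeierstrassCurve.b₄,
    WeierstrassCurve.b₆, WeierstrassCurve.b₈]
  ring

section Local

variable (R : Type) [CommRing R] [IsDomain R] [IsDiscreteValuationRing R] {L : Type}
  [Field L] [Algebra R L] [IsFractionRing R L]

open IsDiscreteValuationRing

/-- the local factor at places of additive reduction, `c₄ = 0` -/
theorem min_add0 {W : WeierstrassCurve L} {m : ℕ} (hm : ¬ 12 ∣ m)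
    (hΔ : (maximalIdeal R).valuation L W.Δ = WithZero.exp (-(m : ℤ))) (h4 : W.c₄ = 0) :
    aLoc R W = 0 ∧ eLoc R W = 0 := by
  set v := (maximalIdeal R).valuation L with hv
  obtain ⟨C, hC⟩ : ∃ C : VariableChange L, W.minimal R = C • W := ⟨_, rfl⟩
  set u : L := ((C.u⁻¹ : Lˣ) : L) with hu
  have hu0 : u ≠ 0 := (C.u⁻¹).ne_zero
  have hd : (W.minimal R).Δ = u ^ 12 * W.Δ := by rw [hC, variableChange_Δ]
  have hc : (W.minimal R).c₄ = u ^ 4 * W.c₄ := by rw [hC, variableChange_c₄]
  have hng : ¬ (W.minimal R).HasGoodReduction R := by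
    intro h
    have h1 := h.goodReduction
    rw [hd, map_mul, hΔ, map_pow] at h1
    have h2 : v u ≠ 0 := (Valuation.ne_zero_iff v).2 hu0
    obtain ⟨k, hk⟩ : ∃ k : ℤ, v u = WithZero.exp k := ⟨WithZero.log (v u), (WithZero.exp_log h2).symm⟩
    rw [hk, ← WithZero.exp_nsmul, ← WithZero.exp_add, WithZero.exp_eq_one] at h1
    simp only [nsmul_eq_mul] at h1
    push_cast at h1
    omega
  have hnm : ¬ (W.minimal R).HasMultiplicativeReduction R := by
    intro h
    have h1 := h.multiplicativeReduction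
    rw [hc, h4, mul_zero, map_zero] at h1
    exact zero_ne_one h1
  have hns : ¬ (W.minimal R).HasSplitMultiplicativeReduction R := fun h =>
    hnm h.toHasMultiplicativeReduction
  unfold aLoc eLoc
  rw [if_neg hng, if_neg hng, if_neg hns, if_neg hnm]
  exact ⟨rfl, rfl⟩

end Local

section places
variable {K : Type} [Field K] [NumberField K]

lemma coe_comp (v : HeightOneSpectrum (𝓞 K)) (x : 𝓞 K) :
    algebraMap (Ov v) (v.adicCompletion K) (algebraMap (𝓞 K) (Ov v) x) =
      algebraMap K (v.adicCompletion K) (x : K) := by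
  rw [HeightOneSpectrum.algebraMap_adicCompletion]
  rfl

lemma isUnit_of_notMem {v : HeightOneSpectrum (𝓞 K)} {x : 𝓞 K} (hx : x ∉ v.asIdeal) :
    IsUnit (algebraMap (𝓞 K) (Ov v) x) := by
  rw [← IsLocalRing.residue_ne_zero_iff_isUnit]
  intro h
  exact hx ((redMap_eq_zero v x).1 h)

lemma valL_unit {v : HeightOneSpectrum (𝓞 K)} {x : 𝓞 K} (hx : x ∉ v.asIdeal) :
    (IsDiscreteValuationRing.maximalIdeal (v.adicCompletionIntegers K)).valuation
      (v.adicCompletion K) (algebraMap K (v.adicCompletion K) (x : K)) = 1 := by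
  rw [← coe_comp]
  exact v_unit (v.adicCompletionIntegers K) (isUnit_of_notMem hx)

/-- the valuation of a uniformizer in the completion -/
lemma valL_gen {v : HeightOneSpectrum (𝓞 K)} {t : 𝓞 K} (ht0 : t ≠ 0)
    (ht : v.asIdeal = Ideal.span {t}) :
    (IsDiscreteValuationRing.maximalIdeal (v.adicCompletionIntegers K)).valuation
      (v.adicCompletion K) (algebraMap K (v.adicCompletion K) (t : K)) =
        WithZero.exp (-1 : ℤ) := by
  have hq : ((algebraMap (𝓞 K) (Ov v) t : Ov v) : v.adicCompletion K) =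
      algebraMap K (v.adicCompletion K) (t : K) := coe_comp v t
  have h1 : Valued.v (algebraMap K (v.adicCompletion K) (t : K)) = WithZero.exp (-1 : ℤ) := by
    rw [Pool.Agent.H723R3.valued_algebraMap]
    have h2 := HeightOneSpectrum.valuation_of_algebraMap (K := K) v t
    rw [v.intValuation_singleton ht0 ht] at h2
    exact h2
  have hlt : ∀ x : Ov v, ¬ IsUnit x → Valued.v (x : v.adicCompletion K) ≤ WithZero.exp (-1 : ℤ) := by
    intro x hx
    have h2 := (mem_max_iff v x).1 ((IsLocalRing.mem_maximalIdeal x).2 hx)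
    by_cases h0 : Valued.v (x : v.adicCompletion K) = 0
    · rw [h0]
      exact zero_le
    · obtain ⟨k, hk⟩ : ∃ k : ℤ, Valued.v (x : v.adicCompletion K) = WithZero.exp k :=
        ⟨WithZero.log _, (WithZero.exp_log h0).symm⟩
      rw [hk] at h2 ⊢
      rw [← WithZero.exp_zero, WithZero.exp_lt_exp] at h2
      rw [WithZero.exp_le_exp]
      omega
  have hirr : Irreducible (algebraMap (𝓞 K) (Ov v) t : Ov v) := by
    constructor
    · intro hu
      have h2 := HeightOneSpectrum.adicCompletionIntegers.isUnit_iff_valued_eq_one.1 hu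
      rw [hq, h1, WithZero.exp_eq_one] at h2
      omega
    · intro a b hab
      by_contra hcon
      push Not at hcon
      have h2 := mul_le_mul' (hlt a hcon.1) (hlt b hcon.2)
      have h3 : ((a * b : Ov v) : v.adicCompletion K) =
        (a : v.adicCompletion K) * (b : v.adicCompletion K) := rfl
      rw [← map_mul, ← h3, ← hab, hq, h1, ← WithZero.exp_add, WithZero.exp_le_exp] at h2
      omega
  have h2 := (IsDiscreteValuationRing.irreducible_iff_uniformizer _).1 hirr
  have h3 := (IsDiscreteValuationRing.maximalIdeal (Ov v)).intValuation_singleton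
    (r := (algebraMap (𝓞 K) (Ov v) t : Ov v)) (hirr.ne_zero) h2
  have h4 := (IsDiscreteValuationRing.maximalIdeal (Ov v)).valuation_of_algebraMap
    (K := v.adicCompletion K) (algebraMap (𝓞 K) (Ov v) t : Ov v)
  rw [h3] at h4
  refine Eq.trans ?_ h4
  congr 1

lemma bcK (v : HeightOneSpectrum (𝓞 K)) (D : 𝓞 K) :
    (ED (D : K)).baseChange (v.adicCompletion K) =
      ED (algebraMap K (v.adicCompletion K) (D : K)) := ED_map _ _

/-- additive reduction: the discriminant is a power of a uniformizer times a unit -/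
theorem bad_of {v : HeightOneSpectrum (𝓞 K)} {D t r : 𝓞 K} (ht0 : t ≠ 0)
    (ht : v.asIdeal = Ideal.span {t}) {m : ℕ} (hm : ¬ 12 ∣ m) (hr : r ∉ v.asIdeal)
    (h : -27 * D ^ 4 = t ^ m * r) : aV (ED (D : K)) v = 0 ∧ eV (ED (D : K)) v = 0 := by
  unfold aV eV
  rw [bcK]
  refine min_add0 (v.adicCompletionIntegers K) hm ?_ (ED_c₄ _)
  have h1 := congrArg (fun x : 𝓞 K => algebraMap K (v.adicCompletion K) (x : K)) h
  have e : (ED (algebraMap K (v.adicCompletion K) (D : K))).Δ =
      (algebraMap K (v.adicCompletion K) (t : K)) ^ m *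
        algebraMap K (v.adicCompletion K) (r : K) := by
    rw [ED_Δ]
    simp only [map_mul, map_pow, map_neg, map_ofNat] at h1
    exact h1
  rw [e, map_mul, map_pow, valL_gen ht0 ht, valL_unit hr, mul_one, ← WithZero.exp_nsmul]
  congr 1
  simp

end places

section main
variable {K : Type} [Field K] [NumberField K] (j : Ei ≃+* 𝓞 K)

/-- reduction of the Eisenstein integers -/
noncomputable def rr (v : HeightOneSpectrum (𝓞 K)) : eis →+* IsLocalRing.ResidueField (Ov v) :=
  (redMap v).comp ((j : Ei →+* 𝓞 K).comp (eq0.symm : eis →+* Ei))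

lemma rr_apply (v : HeightOneSpectrum (𝓞 K)) (x : Ei) : rr j v (eq0 x) = redMap v (j x) := by
  show redMap v (j (eq0.symm (eq0 x))) = _
  rw [eq0.symm_apply_apply]

lemma eq0_surj (x : eis) : ∃ y : Ei, eq0 y = x := ⟨eq0.symm x, eq0.apply_symm_apply x⟩

lemma rr_ker {v : HeightOneSpectrum (𝓞 K)} {α : Ei} (hv : v.asIdeal = Ideal.span {j α})
    (x : eis) : rr j v x = 0 ↔ eq0 α ∣ x := by
  obtain ⟨y, rfl⟩ := eq0_surj x
  rw [rr_apply, redMap_eq_zero, hv, Ideal.mem_span_singleton, map_dvd_iff j, map_dvd_iff eq0]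

lemma nm_nr {v : HeightOneSpectrum (𝓞 K)} {α : Ei} (hv : v.asIdeal = Ideal.span {j α}) :
    (nm v : ℤ) = nr α := by
  rw [← card_quo α]
  have h1 : Nat.card (𝓞 K ⧸ v.asIdeal) = nm v := by
    unfold Pool.Agent.H921R2.TatePole.nm
    rw [Ideal.absNorm_apply, Submodule.cardQuot_apply]
  rw [← h1, hv]
  have e : Ei ⧸ Ideal.span {α} ≃+* 𝓞 K ⧸ (Ideal.span {α}).map (j : Ei →+* 𝓞 K) :=
    Ideal.quotientEquiv _ _ j rfl
  rw [Nat.card_congr e.toEquiv, Ideal.map_span, Set.image_singleton]
  rfl

lemma w_inv (c : ZMod 3) : (star (w ^ (-c).val : Ei) = w ^ c.val) ∧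
    (w ^ (-c).val : Ei) = w ^ (2 * c.val) := by
  revert c
  decide

lemma toC_w : toC w = om := by
  rw [Pool.Agent.Y715.T.Rs.toC_eq, w_re, w_im]
  push_cast
  ring

lemma toC_star' (x : Ei) : toC (star x) = (starRingEnd ℂ) (toC x) := by
  have h1 : toC x * toC (star x) = toC x * (starRingEnd ℂ) (toC x) := by
    rw [← map_mul, mul_star, map_intCast, Complex.mul_conj, toC_normSq]
    push_cast
    rfl
  by_cases hx : x = 0
  · subst hx
    simp
  · have h2 : toC x ≠ 0 := by
      intro h
      apply hx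
      apply toC_inj
      rw [h, map_zero]
    exact mul_left_cancel₀ h2 h1

/-- the local factor at the places of good reduction -/
theorem good_val {v : HeightOneSpectrum (𝓞 K)} {α D : Ei} (hα : Pq α)
    (hv : v.asIdeal = Ideal.span {j α}) (hD : ¬ α ∣ D) :
    ((aV (ED (j D : K)) v : ℤ) : ℂ) = toC (w ^ (-cs α D).val * α) +
      (starRingEnd ℂ) (toC (w ^ (-cs α D).val * α)) ∧
    ((eV (ED (j D : K)) v : ℤ) : ℂ) = (nm v : ℂ) := by
  have hfin := finite_res v
  let _ : Fintype (IsLocalRing.ResidueField (Ov v)) := Fintype.ofFinite _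
  have hcard : Fintype.card (IsLocalRing.ResidueField (Ov v)) = nm v := by
    rw [← Nat.card_eq_fintype_card]
    exact card_res v
  have hnm := nm_nr j hv
  have h3α : ¬ α ∣ 3 := by
    intro h
    apply hα.prime.not_isUnit
    have h1 : α ∣ α - 1 := dvd_trans h hα.three
    have h2 : α ∣ 1 := by
      have := dvd_sub (dvd_refl α) h1
      rwa [sub_sub_cancel] at this
    exact isUnit_of_dvd_one h2
  have hk3 : (3 : IsLocalRing.ResidueField (Ov v)) ≠ 0 := by
    intro h
    have h1 : rr j v (eq0 3) = 0 := by rw [rr_apply, map_ofNat, map_ofNat]; exact h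
    rw [rr_ker j hv, map_dvd_iff eq0] at h1
    exact h3α h1
  have hDu : j D ∉ v.asIdeal := by
    rw [hv, Ideal.mem_span_singleton, map_dvd_iff j]
    exact hD
  have h3u : j 3 ∉ v.asIdeal := by
    rw [hv, Ideal.mem_span_singleton, map_dvd_iff j]
    exact h3α
  have hΔ : IsUnit (EDr (algebraMap (𝓞 K) (Ov v) (j D))).Δ := by
    rw [EDr_Δ]
    have h1 : IsUnit (3 : Ov v) := by
      have := isUnit_of_notMem h3u
      rwa [map_ofNat, map_ofNat] at this
    have h2 : (-27 : Ov v) = -(3 ^ 3) := by norm_num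
    rw [h2]
    exact ((h1.pow 3).neg).mul ((isUnit_of_notMem hDu).pow 4)
  obtain ⟨c1, c2⟩ := min_count (v.adicCompletionIntegers K) hΔ
    (W := (ED (j D : K)).baseChange (v.adicCompletion K)) (by
      rw [bcK, EDr_map, coe_comp])
  have hAP : Nat.card (AP ((EDr (algebraMap (𝓞 K) (Ov v) (j D))).map
      (IsLocalRing.residue (Ov v)))) =
      Nat.card {p : IsLocalRing.ResidueField (Ov v) × IsLocalRing.ResidueField (Ov v) //
        p.2 ^ 2 + rr j v (eq0 D) * p.2 = p.1 ^ 3} := by
    refine Nat.card_congr (Equiv.subtypeEquivRight fun P => ?_)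
    rw [WeierstrassCurve.Affine.equation_iff, rr_apply]
    simp [EDr, redMap]
  have hq : ((Fintype.card (IsLocalRing.ResidueField (Ov v)) : ℕ) : eis) =
      eq0 α * cj (eq0 α) := by
    apply coe_inj'
    rw [cj_mul_coe, eq0_coe, toC_normSq, hcard, ← hnm]
    push_cast
    rfl
  have hnn : nn α = (Fintype.card (IsLocalRing.ResidueField (Ov v)) - 1) / 3 := by
    unfold nn
    rw [hcard, ← hnm, Int.natAbs_natCast]
  have hcs := cs_spec hα.prime hα.norm hD
  have heqw : eq0 w = omr := by
    apply coe_inj'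
    rw [eq0_coe, omr_coe]
    exact toC_w
  have hx : rr j v (eq0 D) ≠ 0 := by
    rw [Ne, rr_ker j hv, map_dvd_iff eq0]
    exact hD
  have hcnt := card_aff_d (rr j v) hk3 (π := eq0 α) (by
      have := (MulEquiv.prime_iff (eq0 : Ei ≃* eis)).2 hα.prime
      exact this) (by
      obtain ⟨t, ht⟩ := hα.three
      have : eq0 α - 1 = 3 * eq0 t := by
        have := congrArg eq0 ht
        rwa [map_sub, map_one, map_mul, map_ofNat] at this
      rw [this]
      exact Ideal.mem_span_singleton.2 (dvd_mul_right _ _)) (rr_ker j hv) hq hx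
      (c := (cs α D).val) (ZMod.val_lt _) (by
      rw [← hnn, ← heqw, ← map_pow, ← map_pow, ← map_sub, map_dvd_iff eq0]
      exact hcs)
  have h10 : Nat.card (IsLocalRing.ResidueField (Ov v)) = nm v := card_res v
  constructor
  · unfold aV
    rw [c1, hAP, Nat.card_eq_fintype_card (α := IsLocalRing.ResidueField (Ov v))]
    have h5 := congrArg (fun t : eis => (t : ℂ)) hcnt
    push_cast at h5
    push_cast
    rw [h5, ← toC_star', star_mul', (w_inv (cs α D)).1, (w_inv (cs α D)).2, map_mul, map_mul,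
      toC_star', map_pow, map_pow]
    have e1 : ((eq0 α : eis) : ℂ) = toC α := eq0_coe α
    have e2 : ((cj (eq0 α) : eis) : ℂ) = (starRingEnd ℂ) (toC α) := by rw [cj_coe, eq0_coe]
    have e3 : ((omr : eis) : ℂ) = toC w := by rw [omr_coe]; exact toC_w.symm
    rw [e1, e2, e3]
    ring
  · unfold eV
    rw [c2, h10]
    push_cast
    rfl

end main

end Pool.Agent.Y696.CTK
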