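import Mathlib
import Pool.Agent.Y696.CTK.LF

/-!
# Project CTK, task LK: the `L`-function of `y² + D y = x³` over `ℚ(ω)`
-/

set_option autoImplicit false
set_option linter.unusedVariables false

namespace Pool.Agent.Y696.CTK

open NumberField IsDedekindDomain WeierstrassCurve
open Pool.Agent.W189.NF (aV eV redMap Ov mem_max_iff finite_res card_res redMap_eq_zero aLoc eLoc)
open Pool.Agent.H921R2.TatePole (nm two_le_nm)
open Pool.Agent.Y715.T.Rs (eq0 eq0_coe card_quo)
open Pool.Agent.Y703.CT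
open Pool.Agent.Y696.CT
open Pool.Agent.Y692.QS hiding chi
open Pool.Agent.Y715.T.Rec (cs nn)
open Pool.Agent.Y715.T.RecG (Pq cs_spec)
open scoped Classical

section
variable {K : Type} [Field K] [NumberField K] (j : Ei ≃+* 𝓞 K)

/-- the prime of `K` -/
noncomputable def pK (P : HeightOneSpectrum Ei) : HeightOneSpectrum (𝓞 K) :=
  ⟨P.asIdeal.comap (j.symm : 𝓞 K →+* Ei), P.isPrime.comap _, by
    intro h
    apply P.ne_bot
    rw [eq_bot_iff]
    intro x hx
    have h1 : j x ∈ P.asIdeal.comap (j.symm : 𝓞 K →+* Ei) := by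
      rw [Ideal.mem_comap]
      show j.symm (j x) ∈ P.asIdeal
      rwa [j.symm_apply_apply]
    rw [h, Ideal.mem_bot] at h1
    rw [Ideal.mem_bot]
    exact j.injective (by rw [h1, map_zero])⟩

lemma mem_pK (P : HeightOneSpectrum Ei) (x : Ei) : j x ∈ (pK j P).asIdeal ↔ x ∈ P.asIdeal := by
  show j.symm (j x) ∈ P.asIdeal ↔ _
  rw [j.symm_apply_apply]

/-- the primes correspond -/
noncomputable def eK : HeightOneSpectrum Ei ≃ HeightOneSpectrum (𝓞 K) :=
  Equiv.ofBijective (pK j) ⟨by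
    intro P Q h
    apply HeightOneSpectrum.ext
    ext x
    rw [← mem_pK j P, ← mem_pK j Q, h], by
    intro v
    refine ⟨⟨v.asIdeal.comap (j : Ei →+* 𝓞 K), v.isPrime.comap _, ?_⟩, ?_⟩
    · intro h
      apply v.ne_bot
      rw [eq_bot_iff]
      intro x hx
      have h1 : j.symm x ∈ v.asIdeal.comap (j : Ei →+* 𝓞 K) := by
        rw [Ideal.mem_comap]
        show j (j.symm x) ∈ v.asIdeal
        rwa [j.apply_symm_apply]
      rw [h, Ideal.mem_bot] at h1
      rw [Ideal.mem_bot]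
      exact j.symm.injective (by rw [h1, map_zero])
    · apply HeightOneSpectrum.ext
      ext x
      obtain ⟨y, rfl⟩ := j.surjective x
      rw [mem_pK]
      rfl⟩

lemma pK_span {P : HeightOneSpectrum Ei} {α : Ei} (h : P.asIdeal = Ideal.span {α}) :
    (pK j P).asIdeal = Ideal.span {j α} := by
  ext x
  obtain ⟨y, rfl⟩ := j.surjective x
  rw [mem_pK, h, Ideal.mem_span_singleton, Ideal.mem_span_singleton, map_dvd_iff j]

lemma span_ns {P : HeightOneSpectrum Ei} (h : ¬ (3 : ℤ) ∣ nr (gn P.asIdeal)) :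
    P.asIdeal = Ideal.span {ns (gn P.asIdeal)} := by
  conv_lhs => rw [← span_gn P.asIdeal]
  exact Ideal.span_singleton_eq_span_singleton.2 (ns_assoc h).symm

lemma pq_ns {P : HeightOneSpectrum Ei} (h : ¬ (3 : ℤ) ∣ nr (gn P.asIdeal)) :
    Pq (ns (gn P.asIdeal)) :=
  ⟨(ns_assoc h).symm.prime (gn_prime P), ns_prim h⟩

/-! ### the places of bad reduction -/

/-- the square root of `-3` -/
def tht : Ei := ⟨1, 2⟩

lemma tht_sq : tht ^ 2 = -3 := by decide

lemma tht_nr : nr tht = 3 := by decide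

lemma tht_prime : Prime tht := prime_of_nr Nat.prime_three (by rw [tht_nr]; rfl)

lemma three_span {P : HeightOneSpectrum Ei} (h : (3 : ℤ) ∣ nr (gn P.asIdeal)) :
    P.asIdeal = Ideal.span {tht} := by
  have hg := gn_prime P
  have h3 : tht ∣ gn P.asIdeal := by
    have h4 : tht ∣ gn P.asIdeal * star (gn P.asIdeal) := by
      rw [mul_star]
      obtain ⟨c, hc⟩ := h
      rw [hc]
      push_cast
      refine Dvd.dvd.mul_right ⟨-tht, ?_⟩ _
      linear_combination tht_sq
    rcases tht_prime.dvd_or_dvd h4 with h5 | h5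
    · exact h5
    · have h6 := star_dvd' h5
      rw [star_star] at h6
      have h7 : star tht = -tht := by decide
      rwa [h7, neg_dvd] at h6
  conv_lhs => rw [← span_gn P.asIdeal]
  exact Ideal.span_singleton_eq_span_singleton.2 (tht_prime.associated_of_dvd hg h3).symm

/-- at the prime above three -/
theorem bad_three {P : HeightOneSpectrum Ei} (h : (3 : ℤ) ∣ nr (gn P.asIdeal)) {D : Ei}
    (hD : (3 : Ei) ∣ D - 1) :
    aV (ED (j D : K)) (pK j P) = 0 ∧ eV (ED (j D : K)) (pK j P) = 0 := by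
  have hs := three_span h
  have h3 : tht ∣ (3 : Ei) := ⟨-tht, by linear_combination tht_sq⟩
  refine bad_of (t := j tht) (r := (j D) ^ 4) (m := 6) ?_ (pK_span j hs) (by norm_num) ?_ ?_
  · rw [Ne, map_eq_zero_iff j j.injective]
    exact tht_prime.ne_zero
  · intro h4
    have h5 := (pK j P).isPrime.mem_of_pow_mem 4 h4
    rw [mem_pK, hs, Ideal.mem_span_singleton] at h5
    apply tht_prime.not_isUnit
    apply isUnit_of_dvd_one
    have h6 := dvd_sub h5 (dvd_trans h3 hD)
    rwa [sub_sub_cancel] at h6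
  · have h7 : (-27 : 𝓞 K) = (j tht) ^ 6 := by
      rw [← map_pow]
      have : tht ^ 6 = -27 := by decide
      rw [this, map_neg, map_ofNat]
    rw [h7]

variable {J : Type} [Fintype J] {π : J → Ei}

lemma pD_one (π : J → Ei) : pD π (fun _ => 1) = ∏ i, π i := by
  unfold pD
  refine Finset.prod_congr rfl fun i _ => ?_
  have : (1 : ZMod 3).val = 1 := by decide
  rw [this, pow_one]

lemma three_dvd_prod (hpq : ∀ i, Pq (π i)) (S : Finset J) : (3 : Ei) ∣ (∏ i ∈ S, π i) - 1 := by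
  induction S using Finset.induction_on with
  | empty => rw [Finset.prod_empty, sub_self]; exact dvd_zero _
  | insert i S hi ih =>
    rw [Finset.prod_insert hi]
    have e : π i * ∏ x ∈ S, π x - 1 = (π i - 1) * ∏ x ∈ S, π x + (∏ x ∈ S, π x - 1) := by ring
    rw [e]
    exact dvd_add (Dvd.dvd.mul_right (hpq i).three _) ih

/-- at the primes dividing `D` -/
theorem bad_D {P : HeightOneSpectrum Ei} (hdt : Dt π (fun _ => 1)) {i : J}
    (h : P.asIdeal = Ideal.span {π i}) :
    aV (ED (j (pD π (fun _ => 1)) : K)) (pK j P) = 0 ∧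
      eV (ED (j (pD π (fun _ => 1)) : K)) (pK j P) = 0 := by
  have hi := hdt.pq i
  have hsp : pD π (fun _ => 1) = π i * ∏ l ∈ Finset.univ.erase i, π l := by
    rw [pD_one, Finset.mul_prod_erase _ _ (Finset.mem_univ i)]
  refine bad_of (t := j (π i)) (r := -27 * (j (∏ l ∈ Finset.univ.erase i, π l)) ^ 4) (m := 4) ?_
    (pK_span j h) (by norm_num) ?_ ?_
  · rw [Ne, map_eq_zero_iff j j.injective]
    exact hi.prime.ne_zero
  · intro h4
    rcases (pK j P).isPrime.mem_or_mem h4 with h5 | h5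
    · have h6 : (-27 : 𝓞 K) = j (-(3 ^ 3)) := by
        rw [map_neg, map_pow, map_ofNat]
        norm_num
      rw [h6, mem_pK, h, Ideal.mem_span_singleton, dvd_neg] at h5
      have h7 := hi.prime.dvd_of_dvd_pow h5
      apply hi.prime.not_isUnit
      apply isUnit_of_dvd_one
      have h8 := dvd_sub (dvd_refl (π i)) (dvd_trans h7 hi.three)
      rwa [sub_sub_cancel] at h8
    · have h6 := (pK j P).isPrime.mem_of_pow_mem 4 h5
      rw [mem_pK, h, Ideal.mem_span_singleton, Prime.dvd_finsetProd_iff hi.prime] at h6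
      obtain ⟨l, hl, h7⟩ := h6
      exact hdt.nd l i (Finset.ne_of_mem_erase hl) h7
  · rw [hsp, map_mul]
    ring

/-! ### the comparison of the local factors -/

lemma conj_nat_cpow' (n : ℕ) (z : ℂ) :
    (starRingEnd ℂ) ((n : ℂ) ^ z) = (n : ℂ) ^ (starRingEnd ℂ) z := by
  rw [Complex.cpow_conj]
  · rw [Complex.conj_natCast]
  · rw [Complex.natCast_arg]
    exact Real.pi_ne_zero.symm

/-- the factor of the Hecke `L`-function and its conjugate -/
theorem factorK (hrec : S_REC) (hdt : Dt π (fun _ => 1)) (s : ℂ) (P : HeightOneSpectrum Ei) :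
    HBd (aV (ED (j (pD π (fun _ => 1)) : K)) (pK j P))
      (eV (ED (j (pD π (fun _ => 1)) : K)) (pK j P)) (nm (pK j P)) ∧
    (1 - (aV (ED (j (pD π (fun _ => 1)) : K)) (pK j P) : ℂ) * (nm (pK j P) : ℂ) ^ (-s) +
      (eV (ED (j (pD π (fun _ => 1)) : K)) (pK j P) : ℂ) * ((nm (pK j P) : ℂ) ^ (-s)) ^ 2)⁻¹ =
    (1 - fI (gg π (fun _ => -1) s) P.asIdeal)⁻¹ *
      (starRingEnd ℂ) ((1 - fI (gg π (fun _ => -1) ((starRingEnd ℂ) s)) P.asIdeal)⁻¹) := by
  have hbad : aV (ED (j (pD π (fun _ => 1)) : K)) (pK j P) = 0 ∧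
      eV (ED (j (pD π (fun _ => 1)) : K)) (pK j P) = 0 →
      (∀ z, fI (gg π (fun _ => -1) z) P.asIdeal = 0) →
      HBd (aV (ED (j (pD π (fun _ => 1)) : K)) (pK j P))
      (eV (ED (j (pD π (fun _ => 1)) : K)) (pK j P)) (nm (pK j P)) ∧
    (1 - (aV (ED (j (pD π (fun _ => 1)) : K)) (pK j P) : ℂ) * (nm (pK j P) : ℂ) ^ (-s) +
      (eV (ED (j (pD π (fun _ => 1)) : K)) (pK j P) : ℂ) * ((nm (pK j P) : ℂ) ^ (-s)) ^ 2)⁻¹ =
    (1 - fI (gg π (fun _ => -1) s) P.asIdeal)⁻¹ *
      (starRingEnd ℂ) ((1 - fI (gg π (fun _ => -1) ((starRingEnd ℂ) s)) P.asIdeal)⁻¹) := by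
    rintro ⟨h1, h2⟩ h3
    refine ⟨Or.inl ⟨h1, h2⟩, ?_⟩
    rw [h1, h2, h3, h3]
    simp
  by_cases h3 : (3 : ℤ) ∣ nr (gn P.asIdeal)
  · refine hbad (bad_three j h3 ?_) fun z => ?_
    · rw [pD_one]
      exact three_dvd_prod hdt.pq _
    · unfold fI
      rw [if_pos h3]
  · set α := ns (gn P.asIdeal) with hα
    have hs := span_ns h3
    rw [← hα] at hs
    have hpq := pq_ns h3
    rw [← hα] at hpq
    have hfI : ∀ g : Ei → ℂ, fI g P.asIdeal = g α := fun g => by
      rw [hs, fI_prim g hpq.three]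
    by_cases hD : α ∣ pD π (fun _ => 1)
    · obtain ⟨i, hi⟩ := dvd_pD hpq.prime hdt hD
      refine hbad (bad_D j hdt (i := i) ?_) fun z => ?_
      · rw [hs]
        exact Ideal.span_singleton_eq_span_singleton.2
          ((hdt.pq i).prime.associated_of_dvd hpq.prime hi).symm
      · rw [hfI]
        unfold gg
        rw [chD_bad hpq.prime hdt (Or.inl rfl) hD, mul_zero, zero_mul]
    · obtain ⟨v1, v2⟩ := good_val j hpq (pK_span j hs) hD
      have hnm := nm_nr j (pK_span j hs)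
      set x := toC (w ^ (-cs α (pD π (fun _ => 1))).val * α) with hx
      have hxx : x * (starRingEnd ℂ) x = (nm (pK j P) : ℂ) := by
        rw [Complex.mul_conj, hx, toC_normSq, nr_mul]
        have h5 : nr (w ^ (-cs α (pD π (fun _ => 1))).val) = 1 := by
          generalize -cs α (pD π (fun _ => 1)) = c
          revert c
          decide
        rw [h5, one_mul, ← hnm]
        push_cast
        rfl
      have hg : ∀ z, gg π (fun _ => -1) z α = x * (nm (pK j P) : ℂ) ^ (-z) := by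
        intro z
        unfold gg
        have h6 := chD_prime hrec hdt (Or.inl rfl) hpq hD
        rw [h6, ← hnm, hx, map_mul, map_pow]
        push_cast
        ring
      refine ⟨Or.inr ⟨x, v1, ?_, hxx⟩, ?_⟩
      · rw [v2, hxx]
      · rw [hfI, hfI, hg, hg, v1, v2, map_inv₀, map_sub, map_one, map_mul, conj_nat_cpow',
          map_neg, Complex.conj_conj, ← mul_inv]
        congr 1
        linear_combination (-(((nm (pK j P) : ℕ) : ℂ) ^ (-s)) ^ 2) * hxx

end

/-- **CTK-LK.** -/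
theorem LK : S_LK := by
  intro hrec K _ _ j J _ π hdt F hF s hs
  have hsc : 3 / 2 < ((starRingEnd ℂ) s).re := by rwa [Complex.conj_re]
  have h1 : HasSum (fun α : {α : Ei // (3 : Ei) ∣ α - 1} => gg π (fun _ => -1) s α) (F s) :=
    hF.2 s hs
  have h2 : HasSum (fun α : {α : Ei // (3 : Ei) ∣ α - 1} =>
      gg π (fun _ => -1) ((starRingEnd ℂ) s) α) (F ((starRingEnd ℂ) s)) := hF.2 _ hsc
  have h3 := hasProd_Ei (gg_one hdt.pq _ s) (gg_mul hdt.pq _ s) h1
  have h4 := (hasProd_Ei (gg_one hdt.pq _ ((starRingEnd ℂ) s)) (gg_mul hdt.pq _ _) h2).map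
    (starRingEnd ℂ) Complex.continuous_conj
  have h5 := h3.mul h4
  have hE : ∀ v : HeightOneSpectrum (𝓞 K), HBd (aV (ED (j (pD π (fun _ => 1)) : K)) v)
      (eV (ED (j (pD π (fun _ => 1)) : K)) v) (nm v) := by
    intro v
    obtain ⟨P, rfl⟩ := (eK j).surjective v
    exact (factorK j hrec hdt s P).1
  obtain ⟨h6, h7⟩ := LSeries_hasProd' (ED (j (pD π (fun _ => 1)) : K)) hE hs
  refine ⟨h6, ?_⟩
  have h8 := (eK j).hasProd_iff.2 h7
  refine h5.unique (h8.congr_fun fun P => ?_)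
  exact ((factorK j hrec hdt s P).2).symm

end Pool.Agent.Y696.CTK
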