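import Pool.Agent.Y696.CTK.Stm2
import Pool.Agent.Y274.CT.ExiCnt

/-!
# The factorization for the whole class (adapted from helper455's `Pool.Agent.Y455.CTK.ge`)
-/

set_option autoImplicit false

open scoped Classical

namespace Pool.Agent.Y696.CTK

open Pool.Agent.Y692.QS
open Pool.Agent.Y715.T.Rs Pool.Agent.Y715.T.Rec
open Pool.Agent.Y703.CT
open Pool.Agent.Y715.T.RecG (Pq)
open Pool.Agent.Y274.CT

theorem prod_toFinset_of_squarefree {s : Multiset Ei} (hs : Squarefree s.prod)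
    (hp : ∀ a ∈ s, Prime a) : s.Nodup := by
  rw [Multiset.nodup_iff_ne_cons_cons]
  intro a t h
  rw [h, Multiset.prod_cons, Multiset.prod_cons, ← mul_assoc] at hs
  have h1 := hs a (Dvd.intro _ rfl)
  exact (hp a (by rw [h]; exact Multiset.mem_cons_self _ _)).not_isUnit h1

theorem ge2 (D : Ei) (hD : ClsE D) : ∃ (n : ℕ) (π : Fin (n + 1) → Ei), Dt π (fun _ => 1) ∧
    D = pD π (fun _ => 1) ∧ (GoodE D → Ker π (fun _ => 1)) := by
  obtain ⟨h3, hsq, h9⟩ := hD
  have hD0 : D ≠ 0 := hsq.ne_zero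
  obtain ⟨f, hf, hfD⟩ := UniqueFactorizationMonoid.exists_prime_factors D hD0
  -- the primes do not divide three
  have hf3 : ∀ b ∈ f, ¬ b ∣ 3 := by
    intro b hb hb3
    have h1 : b ∣ D := (Multiset.dvd_prod hb).trans hfD.dvd
    have h2 : b ∣ 1 := by
      have := dvd_sub h1 (hb3.trans h3)
      rwa [sub_sub_cancel] at this
    exact (hf b hb).not_isUnit (isUnit_of_dvd_one h2)
  obtain ⟨s, hs⟩ : ∃ s, s = f.map ns := ⟨_, rfl⟩
  have hsprod : s.prod = D := by
    have h1 : ns f.prod = s.prod := by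
      rw [hs]
      have := map_multiset_prod nsH f
      exact this
    obtain ⟨u, hu⟩ := hfD
    have h2 : ns D = ns f.prod := by rw [← hu, ns_mul, ns_unit u.isUnit, mul_one]
    rw [← h1, ← h2]
    exact ns_fix h3
  have hspq : ∀ a ∈ s, Pq a := by
    intro a ha
    rw [hs, Multiset.mem_map] at ha
    obtain ⟨b, hb, rfl⟩ := ha
    exact pq_ns (hf b hb) (hf3 b hb)
  have hnd : s.Nodup := prod_toFinset_of_squarefree (by rw [hsprod]; exact hsq)
    (fun a ha => (hspq a ha).prime)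
  obtain ⟨S, hS⟩ : ∃ S : Finset Ei, S = ⟨s, hnd⟩ := ⟨_, rfl⟩
  have hmem : ∀ a, a ∈ S ↔ a ∈ s := by
    intro a
    rw [hS]
    rfl
  have hSprod : ∏ a ∈ S, a = D := by
    rw [← hsprod, hS]
    unfold Finset.prod
    simp
  have hSpq : ∀ a ∈ S, Pq a := fun a ha => hspq a ((hmem a).1 ha)
  -- the set of the primary primes dividing `D`
  have hset : {π : Ei | Pq π ∧ π ∣ D} = ↑S := by
    ext π
    simp only [Set.mem_ofPred_eq, Finset.mem_coe]
    constructor
    · rintro ⟨h1, h2⟩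
      rw [← hSprod] at h2
      obtain ⟨a, ha, hd⟩ := (h1.prime.dvd_finsetProd_iff _).1 h2
      have := eq_of_dvd (hSpq a ha) h1 hd
      rwa [this]
    · intro h
      refine ⟨hSpq π h, ?_⟩
      rw [← hSprod]
      exact Finset.dvd_prod_of_mem _ h
  have hppr : ppr D = S := by
    unfold ppr
    have hfin : {π : Ei | Pq π ∧ π ∣ D}.Finite := by
      rw [hset]
      exact S.finite_toSet
    rw [dif_pos hfin]
    ext π
    rw [Set.Finite.mem_toFinset, hset, Finset.mem_coe]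
  -- `S` is not empty
  have hne : S.card ≠ 0 := by
    intro h0
    rw [Finset.card_eq_zero] at h0
    rw [h0, Finset.prod_empty] at hSprod
    apply h9
    rw [← hSprod, nr_one, sub_self]
    exact dvd_zero _
  obtain ⟨n, hn⟩ : ∃ n, S.card = n + 1 := Nat.exists_eq_succ_of_ne_zero hne
  obtain ⟨e⟩ : Nonempty (Fin (n + 1) ≃ S) := ⟨(S.equivFinOfCardEq hn).symm⟩
  refine ⟨n, fun i => (e i).1, ?_, ?_, ?_⟩
  · refine ⟨fun j => hSpq _ (e j).2, fun i j hij hd => ?_, fun j => one_ne_zero⟩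
    have := eq_of_dvd (hSpq _ (e i).2) (hSpq _ (e j).2) hd
    exact hij (e.injective (Subtype.ext this.symm))
  · unfold pD
    have h1 : ∀ j : Fin (n + 1), ((e j).1 : Ei) ^ ((1 : ZMod 3)).val = (e j).1 := by
      intro j
      have : ((1 : ZMod 3)).val = 1 := rfl
      rw [this, pow_one]
    simp only [h1]
    rw [← hSprod, ← Finset.prod_coe_sort S (fun a => a)]
    exact (Equiv.prod_comp e (fun a : S => (a : Ei))).symm
  · rintro ⟨-, -, -, hker⟩ v hv i j
    obtain ⟨v', hv'⟩ : ∃ v' : Ei → ZMod 3, v' = fun a =>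
        if h : a ∈ S then v (e.symm ⟨a, h⟩) else 0 := ⟨_, rfl⟩
    have hv'e : ∀ i, v' (e i).1 = v i := by
      intro i
      rw [hv']
      simp only [(e i).2, dif_pos]
      congr 1
      rw [Equiv.symm_apply_eq]
    rw [hppr] at hker
    have h1 : ∀ π ∈ S, ∑ ρ ∈ S, cs π ρ * (v' ρ - v' π) = 0 := by
      intro π hπ
      obtain ⟨j, hj⟩ := e.surjective ⟨π, hπ⟩
      have hj' : (e j).1 = π := by rw [hj]
      have h2 := hv j
      rw [← h2, ← Finset.sum_coe_sort S (fun ρ => cs π ρ * (v' ρ - v' π)), ← Equiv.sum_comp e]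
      refine Finset.sum_congr rfl (fun i _ => ?_)
      rw [hv'e, ← hj', hv'e, one_mul]
    have h2 := hker v' h1 (e i).1 (e i).2 (e j).1 (e j).2
    rwa [hv'e, hv'e] at h2

end Pool.Agent.Y696.CTK
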