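import Mathlib
import Pool.Agent.Y696.CTK.Stm
import Pool.Agent.Y696.Cov

/-!
# Project CTK, task PER: the period lattice
-/

set_option autoImplicit false

namespace Pool.Agent.Y696.CTK

open Pool.Agent.Y696 Pool.Agent.W192.HK Pool.Agent.TH936.CM

/-- **CTK-PER.** -/
theorem PER : S_PERK := by
  intro d u hd hu
  obtain ⟨Ω, hΩ, hC⟩ := exists_cur
  have hu0 : u ≠ 0 := by
    rintro rfl
    apply hd
    rw [← hu]
    ring
  have h0 : Ω / u ≠ 0 := div_ne_zero hΩ hu0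
  have h3 : (hex (Ω / u) h0).g₃ = -d ^ 2 := by
    rw [hex_g3_scale h0]
    have h1 := hC.g3
    rw [hex_g3_scale hΩ] at h1
    have h2 : (hex 1 one_ne_zero).g₃ = -Ω ^ 6 := by
      field_simp at h1
      linear_combination h1
    rw [h2, ← hu]
    field_simp
  have h2 : (hex (Ω / u) h0).g₂ = 0 := hex_g2 _ h0
  refine ⟨⟨_, h2, h3⟩, fun Λ k2 k3 => ⟨hex Ω hΩ, Ω, hC, ?_⟩⟩
  have h := Pool.Agent.Y577.LU.lat_unique Λ (hex (Ω / u) h0) (k2.trans h2.symm) (k3.trans h3.symm)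
  have hl : IsLat Λ eis (Ω / u) := by
    refine ⟨h0, fun z => ?_⟩
    rw [h]
    exact (hex_lat _ h0).mem z
  have ha := area hl
  have e1 : ((Real.sqrt |((3 : ℤ) : ℝ)| : ℝ) : ℂ) * (Ω / u * (starRingEnd ℂ) (Ω / u)) =
      ((Real.sqrt 3 * ‖Ω‖ ^ 2 / ‖u‖ ^ 2 : ℝ) : ℂ) := by
    have h4 : |((3 : ℤ) : ℝ)| = 3 := by norm_num
    rw [h4, Complex.mul_conj, Complex.normSq_eq_norm_sq, norm_div]
    push_cast
    ring
  rw [e1] at ha
  exact_mod_cast ha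

end Pool.Agent.Y696.CTK
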