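import Pool.Agent.Y696.CTK.Val
import Pool.Agent.Y696.CTK.GE2
import Pool.Agent.Y696.CTK.LK
import Pool.Agent.Y696.CTK.Per
import Pool.Agent.Y363.CT.SELC
import Pool.Agent.H70CT.SHC
import Pool.Agent.Y319.CT.FF
import Pool.Agent.Y100.CT.CUB3
import Pool.Agent.Y379.CT.Cub
import Pool.Agent.Y379.CT.Ramc
import Pool.Agent.Y674.CT.PT

/-!
# Project CTK: assembly
-/

set_option autoImplicit false
set_option linter.unusedVariables false

open scoped Classical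

namespace Pool.Agent.Y696.CTK

open NumberField IsDedekindDomain WeierstrassCurve WithZero
open Pool.Agent.Y692.QS (Ei w toC)
open Pool.Agent.Y715.T.RecG (Pq)
open Pool.Agent.Y703.CT
open Pool.Agent.Y696 (NonsingRed Cur)
open Pool.Agent.Y715.T.Gi Pool.Agent.Y715.T.Nr Pool.Agent.Y715.T.Df Pool.Agent.Y715.T.Ell
open Pool.Agent.TH841.NF.D (Sha)
open Pool.Agent.Y715.T.Three (lam_ne sq_three)


/-- the parts proved by the team -/
structure Parts : Prop where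
  trf : S_TRF
  mwt : S_MWT
  sht : S_SHT
  tam : ∀ (K : Type) [Field K] [NumberField K] (j : Ei ≃+* 𝓞 K)
    (J : Type) [Fintype J] (π : J → Ei), Dt π (fun _ => 1) →
    ¬ (9 : ℤ) ∣ Pool.Agent.Y692.QS.nr (pD π (fun _ => 1)) - 1 →
      ∃ c : HeightOneSpectrum (𝓞 K) → ℕ, IsTam (ED (j (pD π (fun _ => 1)) : K)) c ∧
        ∃ m : ℕ, ¬ 3 ∣ m ∧ ∏ᶠ w, c w = 3 ^ Fintype.card J * m
  tor : S_TORK
  mwc : S_MWC
  plc : S_PLC
  shc : S_SHCK

/-- The `3`-part of the leading-term formula for `y² + D y = x³` over `K`; the value at `1` is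
not zero if `Tri D` holds -/
def Law3 {K : Type} [Field K] [NumberField K] (D : 𝓞 K) : Prop :=
  Finite (AddCommGroup.torsion (ED (D : K)).toAffine.Point) ∧ padicValNat 3 (tors D) = 1 ∧
  ∃ (Lf : ℂ → ℂ) (c : HeightOneSpectrum (𝓞 K) → ℕ),
    Differentiable ℂ Lf ∧
    (∀ s : ℂ, 3 / 2 < s.re →
      LSeriesSummable ((fun n : ℤ => (n : ℂ)) ∘ (ED (D : K)).LFunction) s ∧
        Lf s = (ED (D : K)).LSeries s) ∧
    (Tri D → Lf 1 ≠ 0) ∧
    IsTam (ED (D : K)) c ∧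
    ∀ σ : K →+* ℂ, (∃ Λ : PeriodPair, Λ.g₂ = 0 ∧ Λ.g₃ = -(σ D) ^ 2) ∧
      ∀ Λ : PeriodPair, Λ.g₂ = 0 → Λ.g₃ = -(σ D) ^ 2 → ∃ ρ : ℂ,
        Lf 1 = ρ * (((2 * |((starRingEnd ℂ) Λ.ω₁ * Λ.ω₂).im| : ℝ) : ℂ) * ((∏ᶠ w, c w : ℕ) : ℂ) /
          (((Real.sqrt |(discr K : ℝ)| : ℝ) : ℂ) * (tors D : ℂ) ^ 2)) ∧
        ∀ (Γ : Type) [LinearOrderedCommGroupWithZero Γ] (v : Valuation ℂ Γ), v 3 < 1 →
          v ρ ≤ 1 ∧ (v ρ = 1 ↔ Tri D)

/-- T2+ with the nonvanishing. -/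
def S_T3P : Prop := ∀ (K : Type) [Field K] [NumberField K] [IsCyclotomicExtension {3} ℚ K],
  (∃ c : ℝ, 0 < c ∧ ∃ X₀ : ℕ, ∀ X : ℕ, X₀ ≤ X →
    c * X ≤ ({D : 𝓞 K | Algebra.norm ℤ D ≤ X ∧ ClsK D}.ncard : ℝ)) ∧
  (∀ D : 𝓞 K, ClsK D → Law3 D) ∧
  ∀ ε : ℝ, 0 < ε → ∃ X₀ : ℕ, ∀ X : ℕ, X₀ ≤ X →
    (1 / 2 - ε) * ({D : 𝓞 K | Algebra.norm ℤ D ≤ X ∧ ClsK D}.ncard : ℝ) ≤
      ({D : 𝓞 K | Algebra.norm ℤ D ≤ X ∧ ClsK D ∧ Tri D}.ncard : ℝ)

section
variable {K : Type} [Field K] [NumberField K] (j : Ei ≃+* 𝓞 K)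

section unit
variable {Γ : Type} [LinearOrderedCommGroupWithZero Γ] (v : Valuation ℂ Γ)

lemma v_emb (τ : Ei →+* ℂ) (z : Ei) : v (τ z) ≤ 1 := by
  have hw : v (τ w) = 1 := by
    refine Pool.Agent.Y715.T.Cg.z_pow (k := 3) (by norm_num) ?_
    rw [← map_pow]
    have : (w : Ei) ^ 3 = 1 := by decide
    rw [this, map_one]
  rw [Pool.Agent.Y692.QS.eta z, map_add, map_mul, map_intCast, map_intCast]
  refine (v.map_add _ _).trans (max_le (Pool.Agent.Y715.Two.v_int _) ?_)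
  rw [map_mul, hw, mul_one]
  exact Pool.Agent.Y715.Two.v_int _

lemma v_emb_unit (hv : v 3 < 1) (τ : Ei →+* ℂ) {z : Ei} (hz : (3 : Ei) ∣ z - 1) :
    v (τ z) = 1 := by
  obtain ⟨t, ht⟩ := hz
  apply Pool.Agent.Y715.Two.v_unit
  have e : τ z - 1 = 3 * τ t := by
    have := congrArg τ ht
    rwa [map_sub, map_one, map_mul, map_ofNat] at this
  rw [e, map_mul]
  exact (mul_le_mul' le_rfl (v_emb v τ t)).trans_lt (by rwa [mul_one])

lemma v_cube {x : ℂ} (h : v (x ^ 3) = 1) : v x = 1 := by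
  rw [map_pow] at h
  exact (pow_eq_one_iff_of_nonneg zero_le three_ne_zero).1 h

end unit

variable {J : Type} [Fintype J] [Nonempty J] {π : J → Ei}

/-- the group of points is finite and the `3`-part of Sha trivial exactly when the kernel is small -/
theorem tri_iff (P : Parts) (hD : Dt π (fun _ => 1))
    (h9 : ¬ (9 : ℤ) ∣ Pool.Agent.Y692.QS.nr (pD π (fun _ => 1)) - 1) :
    Tri (j (pD π (fun _ => 1))) ↔ Ker π (fun _ => 1) := by
  have hne : pD π (fun _ => 1) ≠ 0 := Pool.Agent.Y153.CTRAM.ne_zero_of hD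
  constructor
  · rintro ⟨h1, h2⟩
    by_contra hk
    obtain ⟨e, i₀, hi, u, a, Ψ, g, hdata⟩ := P.trf K j _ hne
    have hT := hdata.1
    have ha := a_ne hD hT
    have hM := P.mwc K j _ hne e i₀ hi u a Ψ g hdata ha h1
    have hS := P.shc P.plc K j _ hne e i₀ hi u a Ψ g hdata h2
    have hsel := Pool.Agent.H70CT.t_SHC _ hne i₀ hi u a hT ha hS hM
    exact Pool.Agent.Y363.CT.SELC.t_SELC Pool.Agent.Y319.CT.t_FF Pool.Agent.Y379.CT.t_CUB
      Pool.Agent.Y100.CT.CUB3.t_cub3 Pool.Agent.Y674.CT.t_PT Pool.Agent.Y379.CT.t_RAMC J π _ hD hk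
      h9 i₀ hi u a hT hsel
  · intro hk
    exact ⟨(P.mwt P.trf K j _ hne fun i₀ hi u a hT => (descK hD hk h9 hT).2).1,
      P.sht P.trf K j _ hne fun i₀ hi u a hT => (descK hD hk h9 hT).1⟩

lemma diff_conj {F : ℂ → ℂ} (hF : Differentiable ℂ F) :
    Differentiable ℂ (fun s => F s * (starRingEnd ℂ) (F ((starRingEnd ℂ) s))) := by
  refine hF.mul ?_
  intro s
  have h1 := (hF ((starRingEnd ℂ) s)).conj_conj
  rw [Complex.conj_conj] at h1
  exact h1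

/-- the law for one `D` -/
theorem law_of (P : Parts) (hdisc : discr K = -3) (hD : Dt π (fun _ => 1))
    (h9 : ¬ (9 : ℤ) ∣ Pool.Agent.Y692.QS.nr (pD π (fun _ => 1)) - 1) :
    Law3 (j (pD π (fun _ => 1))) := by
  have hne : pD π (fun _ => 1) ≠ 0 := Pool.Agent.Y153.CTRAM.ne_zero_of hD
  have h3D : (3 : Ei) ∣ pD π (fun _ => 1) - 1 := by
    rw [pD_one]
    exact three_dvd_prod hD.pq _
  have htri := tri_iff j P hD h9
  obtain ⟨e, i₀, hi, u₀, a, Ψ, g₀, hdata⟩ := P.trf K j _ hne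
  obtain ⟨ht1, ht2⟩ := P.tor K j _ hne e i₀ hi u₀ a Ψ g₀ hdata (a_ne hD hdata.1)
  obtain ⟨F, hF, hval⟩ := val_sq hD h9
  obtain ⟨c, hc, m, hm3, hm⟩ := P.tam K j J π hD h9
  set N := tors (j (pD π (fun _ => 1))) with hN
  have ht2' : padicValNat 3 N = 1 := ht2
  have hN0 : N ≠ 0 := by
    intro h
    rw [h] at ht2'
    simp at ht2'
  obtain ⟨n', hn'⟩ : 3 ∣ N := by
    have := pow_padicValNat_dvd (p := 3) (n := N)
    rwa [ht2', pow_one] at this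
  have hp3 : Fact (Nat.Prime 3) := ⟨Nat.prime_three⟩
  have hn3 : ¬ 3 ∣ n' := by
    rintro ⟨t, rfl⟩
    have h2 : 3 ^ 2 ∣ N := ⟨t, by rw [hn']; ring⟩
    have := (padicValNat_dvd_iff_le hN0).1 h2
    omega
  have hm0 : m ≠ 0 := by
    rintro rfl
    exact hm3 (dvd_zero 3)
  refine ⟨ht1, ht2, fun s => F s * (starRingEnd ℂ) (F ((starRingEnd ℂ) s)), c, diff_conj hF.1,
    fun s hs => LK Pool.Agent.Y350.CT.rec K j J π hD F hF s hs, ?_, hc, fun σ => ?_⟩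
  · intro hT
    obtain ⟨V, hV⟩ := Pool.Agent.Y715.T.Fin.exists_over_three
    obtain ⟨Ω, hΩ, hC⟩ := exists_cur
    obtain ⟨g, -, hg2, -, hg⟩ := hval V.ValueGroup V.valuation hV _ Ω hC
    rw [hg2 (htri.1 hT), mul_one] at hg
    have hl : V.valuation Pool.Agent.Y715.T.Three.lam ≠ 0 := lam_ne
    intro h0
    have h0' : F 1 * (starRingEnd ℂ) (F 1) = 0 := by
      have : F 1 * (starRingEnd ℂ) (F ((starRingEnd ℂ) 1)) = 0 := h0
      rwa [map_one] at this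
    rw [h0', zero_div, map_zero, zero_mul] at hg
    exact pow_ne_zero _ (mul_ne_zero hl hl) hg.symm
  set τ : Ei →+* ℂ := σ.comp ((algebraMap (𝓞 K) K).comp (j : Ei →+* 𝓞 K)) with hτ
  have hτa : ∀ z, τ z = σ (j z : K) := fun z => rfl
  set d : ℂ := σ (j (pD π (fun _ => 1)) : K) with hd
  have hd0 : d ≠ 0 := by
    rw [hd, ← hτa]
    intro h
    apply hne
    apply j.injective
    rw [map_zero]
    have h1 : ((j (pD π (fun _ => 1)) : 𝓞 K) : K) = 0 := (map_eq_zero σ).1 h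
    exact_mod_cast h1
  obtain ⟨u, hu⟩ := IsAlgClosed.exists_pow_nat_eq d (n := 3) (by norm_num)
  obtain ⟨hex, hall⟩ := PER d u hd0 hu
  refine ⟨hex, fun Λ k2 k3 => ?_⟩
  obtain ⟨L, Ω, hC, hA⟩ := hall Λ k2 k3
  have hΩ : Ω ≠ 0 := hC.lat.ne
  have hu0 : u ≠ 0 := by
    rintro rfl
    apply hd0
    rw [← hu]
    ring
  have hΩc : (starRingEnd ℂ) Ω ≠ 0 := (map_ne_zero _).2 hΩ
  have huc : (starRingEnd ℂ) u ≠ 0 := (map_ne_zero _).2 hu0
  have hNC : (N : ℂ) ≠ 0 := by exact_mod_cast hN0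
  have hmC : (m : ℂ) ≠ 0 := by exact_mod_cast hm0
  have hs3 : ((Real.sqrt 3 : ℝ) : ℂ) ≠ 0 := by
    rw [Ne, Complex.ofReal_eq_zero]
    positivity
  have hA' : (((2 * |((starRingEnd ℂ) Λ.ω₁ * Λ.ω₂).im| : ℝ)) : ℂ) =
      ((Real.sqrt 3 : ℝ) : ℂ) * (Ω * (starRingEnd ℂ) Ω) / (u * (starRingEnd ℂ) u) := by
    rw [hA, Complex.mul_conj, Complex.mul_conj, Complex.normSq_eq_norm_sq,
      Complex.normSq_eq_norm_sq]
    push_cast
    ring
  have hdis : ((Real.sqrt |(discr K : ℝ)| : ℝ) : ℂ) = ((Real.sqrt 3 : ℝ) : ℂ) := by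
    rw [hdisc]
    norm_num
  refine ⟨F 1 * (starRingEnd ℂ) (F 1) / (Ω * (starRingEnd ℂ) Ω) * (u * (starRingEnd ℂ) u) *
    (N : ℂ) ^ 2 / (3 ^ Fintype.card J * m), ?_, ?_⟩
  · rw [hA', hdis, hm, ← hN]
    push_cast
    rw [map_one]
    field_simp
  · intro Γ _ v hv
    obtain ⟨g, hg1, hg2, hg3, hg⟩ := hval Γ v hv L Ω hC
    have hvm := v_natp hv hm3
    have hvN : v (N : ℂ) = v 3 := by
      rw [hn']
      push_cast
      rw [map_mul, v_natp hv hn3, mul_one]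
    have hvu : v u = 1 := by
      apply v_cube
      rw [hu, hd, ← hτa]
      exact v_emb_unit v hv τ h3D
    have hvu' : v ((starRingEnd ℂ) u) = 1 := by
      apply v_cube
      rw [← map_pow, hu, hd, ← hτa]
      exact v_emb_unit v hv ((starRingEnd ℂ).comp τ) h3D
    have hl : v Pool.Agent.Y715.T.Three.lam ≠ 0 := lam_ne
    obtain ⟨n, hn⟩ : ∃ n, Fintype.card J = n + 1 := ⟨Fintype.card J - 1, by
      have := Fintype.card_pos (α := J)
      omega⟩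
    have hv3 : v 3 ≠ 0 := by
      rw [← sq_three]
      exact mul_ne_zero hl hl
    have key : v (F 1 * (starRingEnd ℂ) (F 1) / (Ω * (starRingEnd ℂ) Ω) *
        (u * (starRingEnd ℂ) u) * (N : ℂ) ^ 2 / (3 ^ Fintype.card J * m)) = g := by
      rw [sq_three, hn, Nat.add_sub_cancel] at hg
      rw [hn, map_div₀, map_mul, map_mul, map_mul v u, map_mul v (3 ^ (n + 1)), map_pow, map_pow,
        hvN, hvu, hvu', hvm, mul_one, mul_one, mul_one]
      rw [div_eq_iff (pow_ne_zero _ hv3)]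
      calc _ = (v (F 1 * (starRingEnd ℂ) (F 1) / (Ω * (starRingEnd ℂ) Ω)) * v 3) * v 3 := by
            rw [pow_two, mul_assoc]
        _ = v 3 ^ n * g * v 3 := by rw [hg]
        _ = _ := by rw [pow_succ]; ac_rfl
    rw [key]
    refine ⟨hg1, ?_⟩
    rw [htri]
    constructor
    · intro h
      by_contra hk
      exact absurd h (hg3 hk).ne
    · exact hg2

end

/-- **T2+.** -/
theorem T3P (P : Parts) (hjex : S_JEX) (hcnt : S_CNT9) (hdens : S_DENS2) : S_T3P := by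
  intro K _ _ _
  obtain ⟨⟨j, hj⟩, hdisc⟩ := hjex K
  have hcls : ∀ D : Ei, ClsK (j D) ↔ ClsE D := by
    intro D
    unfold ClsK ClsE
    have e1 : (3 : 𝓞 K) ∣ j D - 1 ↔ (3 : Ei) ∣ D - 1 := by
      have : j D - 1 = j (D - 1) := by rw [map_sub, map_one]
      rw [this, ← map_ofNat j 3, map_dvd_iff j]
    have e2 : Squarefree (j D) ↔ Squarefree D := by
      constructor
      · intro h x hx
        have h1 := h (j x) (by rw [← map_mul]; exact map_dvd j hx)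
        exact (MulEquiv.isUnit_map j).1 h1
      · intro h x hx
        obtain ⟨y, rfl⟩ := j.surjective x
        rw [← map_mul, map_dvd_iff j] at hx
        exact (h y hx).map j
    rw [e1, e2, hj]
  have hlaw : ∀ D : Ei, ClsE D → Law3 (j D) ∧ (GoodE D → Tri (j D)) := by
    intro D hD
    obtain ⟨n, π, hdt, rfl, hgood⟩ := ge2 D hD
    exact ⟨law_of j P hdisc hdt hD.2.2, fun h => (tri_iff j P hdt hD.2.2).2 (hgood h)⟩
  have himg : ∀ (X : ℕ) (p : Ei → Prop) (q : 𝓞 K → Prop), (∀ D, p D ↔ q (j D)) →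
      {D : 𝓞 K | Algebra.norm ℤ D ≤ X ∧ q D}.ncard = {D : Ei | Pool.Agent.Y692.QS.nr D ≤ X ∧ p D}.ncard := by
    intro X p q hpq
    rw [← Set.ncard_image_of_injective _ j.injective]
    congr 1
    ext D
    obtain ⟨z, rfl⟩ := j.surjective D
    simp only [Set.mem_ofPred_eq, Set.mem_image]
    constructor
    · rintro ⟨h1, h2⟩
      rw [hj] at h1
      exact ⟨z, ⟨h1, (hpq z).2 h2⟩, rfl⟩
    · rintro ⟨y, ⟨h1, h2⟩, h3⟩
      have := j.injective h3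
      subst this
      rw [hj]
      exact ⟨h1, (hpq _).1 h2⟩
  have hfin : ∀ (X : ℕ), {D : Ei | Pool.Agent.Y692.QS.nr D ≤ X}.Finite := by
    intro X
    refine Set.Finite.subset (((Set.finite_Icc (-(2 * X : ℤ)) (2 * X)).prod
      (Set.finite_Icc (-(2 * X : ℤ)) (2 * X))).image fun p : ℤ × ℤ => (⟨p.1, p.2⟩ : Ei)) ?_
    intro D hD
    have hD' : D.re ^ 2 - D.re * D.im + D.im ^ 2 ≤ X := hD
    have hX : (0 : ℤ) ≤ X := Int.natCast_nonneg X
    have h1 : D.re ^ 2 ≤ 2 * X := by nlinarith [sq_nonneg (D.re - 2 * D.im)]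
    have h2 : D.im ^ 2 ≤ 2 * X := by nlinarith [sq_nonneg (2 * D.re - D.im)]
    have h3 : |D.re| ≤ 2 * X := ((Int.natCast_natAbs D.re).symm.le.trans (Int.natAbs_le_self_sq _)).trans h1
    have h4 : |D.im| ≤ 2 * X := ((Int.natCast_natAbs D.im).symm.le.trans (Int.natAbs_le_self_sq _)).trans h2
    exact ⟨(D.re, D.im), ⟨abs_le.1 h3, abs_le.1 h4⟩, rfl⟩
  refine ⟨?_, ?_, ?_⟩
  · obtain ⟨c, hc, X₀, h⟩ := hcnt
    refine ⟨c, hc, X₀, fun X hX => ?_⟩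
    rw [himg X ClsE ClsK fun D => (hcls D).symm]
    exact h X hX
  · intro D hD
    obtain ⟨z, rfl⟩ := j.surjective D
    exact (hlaw z ((hcls z).1 hD)).1
  · intro ε hε
    obtain ⟨X₀, h⟩ := hdens ε hε
    refine ⟨X₀, fun X hX => ?_⟩
    rw [himg X ClsE ClsK fun D => (hcls D).symm]
    refine (h X hX).trans ?_
    rw [himg X (fun D => ClsE D ∧ Tri (j D)) (fun D => ClsK D ∧ Tri D)
      fun D => and_congr_left fun _ => (hcls D).symm]
    have : ({D : Ei | Pool.Agent.Y692.QS.nr D ≤ X ∧ GoodE D}.ncard) ≤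
        {D : Ei | Pool.Agent.Y692.QS.nr D ≤ X ∧ ClsE D ∧ Tri (j D)}.ncard := by
      refine Set.ncard_le_ncard ?_ ((hfin X).subset fun D hD => hD.1)
      rintro D ⟨h1, h2⟩
      have h3 : ClsE D := ⟨h2.1, h2.2.1, h2.2.2.1⟩
      exact ⟨h1, h3, (hlaw D h3).2 h2⟩
    exact_mod_cast this

end Pool.Agent.Y696.CTK
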