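import Pool.Agent.Y696.CTK.Asm

/-!
# Project CTK: the criterion
-/

set_option autoImplicit false
set_option linter.unusedVariables false
set_option linter.unusedSectionVars false

open scoped Classical

namespace Pool.Agent.Y696.CTK

open NumberField IsDedekindDomain WeierstrassCurve WithZero
open Pool.Agent.Y692.QS (Ei w toC)
open Pool.Agent.Y715.T.RecG (Pq)
open Pool.Agent.Y703.CT
open Pool.Agent.Y715.T.Rec (cs nn)

/-- the kernel of the Laplacian consists of the constants -/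
def Lap {n : ℕ} (χ : Fin n → Fin n → ZMod 3) : Prop :=
  ∀ v : Fin n → ZMod 3, (∀ j, ∑ i, χ j i * (v i - v j) = 0) → ∀ i j, v i = v j

/-- `D` is the product of the primary primes `π i`, and `(π i / π j)_3 = ω ^ χ j i` -/
def IsFact {K : Type} [Field K] [NumberField K] (ω D : 𝓞 K) (n : ℕ) (π : Fin n → 𝓞 K)
    (χ : Fin n → Fin n → ZMod 3) : Prop :=
  (∀ i, Prime (π i) ∧ (3 : 𝓞 K) ∣ π i - 1) ∧ D = ∏ i, π i ∧
  ∀ i j, i ≠ j →
    π j ∣ π i ^ (((Algebra.norm ℤ (π j)).natAbs - 1) / 3) - ω ^ (χ j i).val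

lemma w_two (c : ZMod 3) : ((w : Ei) ^ 2) ^ c.val = w ^ (-c).val := by
  revert c
  decide

variable {K : Type} [Field K] [NumberField K] (j : Ei ≃+* 𝓞 K)

lemma three_dvd_symm {x : 𝓞 K} (h : (3 : 𝓞 K) ∣ x - 1) : (3 : Ei) ∣ j.symm x - 1 := by
  have h1 : j.symm x - 1 = j.symm (x - 1) := by rw [map_sub, map_one]
  rw [h1, ← map_ofNat j.symm 3]
  exact map_dvd j.symm h

lemma pq_symm {x : 𝓞 K} (hp : Prime x) (h : (3 : 𝓞 K) ∣ x - 1) : Pq (j.symm x) :=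
  ⟨(MulEquiv.prime_iff (j.symm : 𝓞 K ≃* Ei)).2 hp, three_dvd_symm j h⟩

/-- the factorization as data `Dt` -/
lemma fact_dt {ω D : 𝓞 K} {n : ℕ} {π : Fin n → 𝓞 K} {χ : Fin n → Fin n → ZMod 3}
    (hsq : Squarefree D) (h : IsFact ω D n π χ) :
    Dt (fun i => j.symm (π i)) (fun _ => (1 : ZMod 3)) ∧
      pD (fun i => j.symm (π i)) (fun _ => (1 : ZMod 3)) = j.symm D := by
  obtain ⟨h1, h2, h3⟩ := h
  refine ⟨⟨fun i => pq_symm j (h1 i).1 (h1 i).2, fun i k hik hd => ?_, fun _ => one_ne_zero⟩, ?_⟩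
  · have hd' : π k ∣ π i := (map_dvd_iff j.symm).1 hd
    have h4 : π i * π k ∣ D := by
      rw [h2, ← Finset.mul_prod_erase Finset.univ π (Finset.mem_univ i)]
      refine mul_dvd_mul_left _ (Finset.dvd_prod_of_mem _ ?_)
      exact Finset.mem_erase.2 ⟨hik.symm, Finset.mem_univ _⟩
    exact (h1 k).1.not_isUnit (hsq _ ((mul_dvd_mul_right hd' _).trans h4))
  · unfold pD
    have h4 : ((1 : ZMod 3)).val = 1 := rfl
    simp only [h4, pow_one]
    rw [h2, map_prod]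

/-- the kernels -/
lemma ker_iff (hj : ∀ z : Ei, Algebra.norm ℤ (j z) = Pool.Agent.Y692.QS.nr z)
    {ω D : 𝓞 K} {n : ℕ} {π : Fin n → 𝓞 K} {χ : Fin n → Fin n → ZMod 3}
    (hω : ω ^ 2 + ω + 1 = 0) (h : IsFact ω D n π χ) :
    Ker (fun i => j.symm (π i)) (fun _ => (1 : ZMod 3)) ↔ Lap χ := by
  obtain ⟨h1, h2, h3⟩ := h
  obtain ⟨ε, hε, hcs⟩ : ∃ ε : ZMod 3, ε ≠ 0 ∧ ∀ i k, i ≠ k →
      cs (j.symm (π k)) (j.symm (π i)) = ε * χ k i := by
    have hnn : ∀ k, nn (j.symm (π k)) = ((Algebra.norm ℤ (π k)).natAbs - 1) / 3 := by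
      intro k
      unfold nn
      rw [← hj, RingEquiv.apply_symm_apply]
    have hww : (w : Ei) ^ 2 + w + 1 = 0 := by decide
    have hfac : (ω - j w) * (ω - j (w ^ 2)) = 0 := by
      have e1 : (w : Ei) ^ 2 = -w - 1 := by linear_combination hww
      rw [e1, map_sub, map_neg, map_one]
      have e2 : (j w) ^ 2 + j w + 1 = 0 := by
        rw [← map_pow, ← map_one j, ← map_add, ← map_add, hww, map_zero]
      linear_combination hω - e2
    rcases mul_eq_zero.1 hfac with h4 | h4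
    · refine ⟨1, one_ne_zero, fun i k hik => ?_⟩
      rw [one_mul]
      have hpq := pq_symm j (h1 k).1 (h1 k).2
      apply Pool.Agent.Y715.T.RecG.cs_of hpq.prime hpq.norm
      have h5 := map_dvd j.symm (h3 i k hik)
      rw [sub_eq_zero.1 h4, map_sub, map_pow, map_pow, RingEquiv.symm_apply_apply, ← hnn k] at h5
      exact h5
    · refine ⟨-1, by decide, fun i k hik => ?_⟩
      rw [neg_one_mul]
      have hpq := pq_symm j (h1 k).1 (h1 k).2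
      apply Pool.Agent.Y715.T.RecG.cs_of hpq.prime hpq.norm
      have h5 := map_dvd j.symm (h3 i k hik)
      rw [sub_eq_zero.1 h4, map_sub, map_pow, map_pow, RingEquiv.symm_apply_apply, ← hnn k,
        w_two] at h5
      exact h5
  have key : ∀ (v : Fin n → ZMod 3) (k : Fin n),
      ∑ i, (1 : ZMod 3) * cs (j.symm (π k)) (j.symm (π i)) * (v i - v k) =
        ε * ∑ i, χ k i * (v i - v k) := by
    intro v k
    rw [Finset.mul_sum]
    refine Finset.sum_congr rfl fun i _ => ?_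
    by_cases hik : i = k
    · rw [hik, sub_self, mul_zero, mul_zero, mul_zero]
    · rw [hcs i k hik]
      ring
  unfold Ker Lap
  simp only [key, mul_eq_zero, hε, false_or]

/-- there is a factorization -/
lemma fact_ex (hj : ∀ z : Ei, Algebra.norm ℤ (j z) = Pool.Agent.Y692.QS.nr z) {D : Ei}
    (hD : ClsE D) : ∃ (ω : 𝓞 K) (n : ℕ) (π : Fin n → 𝓞 K) (χ : Fin n → Fin n → ZMod 3),
      ω ^ 2 + ω + 1 = 0 ∧ IsFact ω (j D) n π χ := by
  obtain ⟨n, π, hdt, hDp, -⟩ := ge2 D hD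
  refine ⟨j w, n + 1, fun i => j (π i), fun k i => cs (π k) (π i), ?_, fun i => ⟨?_, ?_⟩, ?_, ?_⟩
  · have hww : (w : Ei) ^ 2 + w + 1 = 0 := by decide
    rw [← map_pow, ← map_one j, ← map_add, ← map_add, hww, map_zero]
  · exact (MulEquiv.prime_iff (j : Ei ≃* 𝓞 K)).2 (hdt.pq i).prime
  · have h1 := map_dvd j (hdt.pq i).three
    rwa [map_sub, map_one, map_ofNat] at h1
  · rw [hDp]
    unfold pD
    have h4 : ((1 : ZMod 3)).val = 1 := rfl
    simp only [h4, pow_one]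
    rw [map_prod]
  · intro i k hik
    have h1 := map_dvd j (Pool.Agent.Y715.T.RecG.cs_spec (hdt.pq k).prime (hdt.pq k).norm
      (hdt.nd i k hik))
    rw [map_sub, map_pow, map_pow] at h1
    rw [hj]
    exact h1

/-- the criterion -/
theorem crit (P : Parts) (hj : ∀ z : Ei, Algebra.norm ℤ (j z) = Pool.Agent.Y692.QS.nr z)
    {ω D : 𝓞 K} (hD : ClsK D) (hω : ω ^ 2 + ω + 1 = 0) {n : ℕ} {π : Fin n → 𝓞 K}
    {χ : Fin n → Fin n → ZMod 3} (h : IsFact ω D n π χ) : Tri D ↔ Lap χ := by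
  obtain ⟨h1, h2⟩ := fact_dt j hD.2.1 h
  have hn : Nonempty (Fin n) := by
    rw [← not_isEmpty_iff]
    intro hn
    apply hD.2.2
    rw [h.2.1, Finset.univ_eq_empty, Finset.prod_empty, map_one, sub_self]
    exact dvd_zero _
  have h9 : ¬ (9 : ℤ) ∣ Pool.Agent.Y692.QS.nr
      (pD (fun i => j.symm (π i)) (fun _ => (1 : ZMod 3))) - 1 := by
    rw [h2, ← hj, RingEquiv.apply_symm_apply]
    exact hD.2.2
  rw [← ker_iff j hj hω h, ← tri_iff j P h1 h9, h2, RingEquiv.apply_symm_apply]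

/-- the criterion, as a property of `D` -/
def CritK {K : Type} [Field K] [NumberField K] (D : 𝓞 K) : Prop :=
  (∃ (ω : 𝓞 K) (n : ℕ) (π : Fin n → 𝓞 K) (χ : Fin n → Fin n → ZMod 3),
    ω ^ 2 + ω + 1 = 0 ∧ IsFact ω D n π χ) ∧
  ∀ (ω : 𝓞 K) (n : ℕ) (π : Fin n → 𝓞 K) (χ : Fin n → Fin n → ZMod 3),
    ω ^ 2 + ω + 1 = 0 → IsFact ω D n π χ → (Tri D ↔ Lap χ)

/-- T2+ with the nonvanishing and the criterion. -/
def S_T4P : Prop := ∀ (K : Type) [Field K] [NumberField K] [IsCyclotomicExtension {3} ℚ K],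
  (∃ c : ℝ, 0 < c ∧ ∃ X₀ : ℕ, ∀ X : ℕ, X₀ ≤ X →
    c * X ≤ ({D : 𝓞 K | Algebra.norm ℤ D ≤ X ∧ ClsK D}.ncard : ℝ)) ∧
  (∀ D : 𝓞 K, ClsK D → Law3 D ∧ CritK D) ∧
  ∀ ε : ℝ, 0 < ε → ∃ X₀ : ℕ, ∀ X : ℕ, X₀ ≤ X →
    (1 / 2 - ε) * ({D : 𝓞 K | Algebra.norm ℤ D ≤ X ∧ ClsK D}.ncard : ℝ) ≤
      ({D : 𝓞 K | Algebra.norm ℤ D ≤ X ∧ ClsK D ∧ Tri D}.ncard : ℝ)

theorem T4P (P : Parts) (hjex : S_JEX) (hcnt : S_CNT9) (hdens : S_DENS2) : S_T4P := by
  intro K _ _ _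
  obtain ⟨⟨j, hj⟩, hdisc⟩ := hjex K
  obtain ⟨h1, h2, h3⟩ := T3P P hjex hcnt hdens K
  refine ⟨h1, fun D hD => ⟨h2 D hD, ?_, fun ω n π χ hω h => crit j P hj hD hω h⟩, h3⟩
  obtain ⟨z, rfl⟩ := j.surjective D
  refine fact_ex j hj ⟨?_, ?_, ?_⟩
  · have e1 := three_dvd_symm j hD.1
    rwa [RingEquiv.symm_apply_apply] at e1
  · intro x hx
    exact (MulEquiv.isUnit_map j).1 (hD.2.1 (j x) (by rw [← map_mul]; exact map_dvd j hx))
  · rw [← hj]
    exact hD.2.2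

end Pool.Agent.Y696.CTK
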