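import Pool.Agent.Y696.CTK.Stm

/-!
# Project CTK: the strong form of the final statement, and the converse of the descent

For all `D` of the class; the equation `v (ratio) = 1` is equivalent to: `E_D(K)` is finite and the
`3`-primary part of the Tate-Shafarevich group is trivial.
-/

set_option autoImplicit false
set_option linter.unusedVariables false

open scoped Classical

namespace Pool.Agent.Y696.CTK

open NumberField IsDedekindDomain WeierstrassCurve WithZero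
open Pool.Agent.Y692.QS (Ei w nr toC)
open Pool.Agent.Y715.T.RecG (Pq)
open Pool.Agent.Y703.CT
open Pool.Agent.Y696 (NonsingRed Cur)
open Pool.Agent.Y715.T.Gi Pool.Agent.Y715.T.Nr Pool.Agent.Y715.T.Df Pool.Agent.Y715.T.Ell
open Pool.Agent.TH841.NF.D (Sha)

section final
variable {K : Type} [Field K] [NumberField K]

/-- the group of points is finite and the `3`-primary part of the Tate-Shafarevich group is
trivial -/
def Tri (D : 𝓞 K) : Prop :=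
  Finite (ED (D : K)).toAffine.Point ∧ ∀ (n : ℕ) (x : Sha (ED (D : K))), 3 ^ n • x = 0 → x = 0

/-- the order of the torsion subgroup -/
noncomputable def tors (D : 𝓞 K) : ℕ :=
  Nat.card (AddCommGroup.torsion (ED (D : K)).toAffine.Point)

/-- The `3`-part of the leading-term formula for `y² + D y = x³` over `K` -/
def Law2 (D : 𝓞 K) : Prop :=
  Finite (AddCommGroup.torsion (ED (D : K)).toAffine.Point) ∧ padicValNat 3 (tors D) = 1 ∧
  ∃ (Lf : ℂ → ℂ) (c : HeightOneSpectrum (𝓞 K) → ℕ),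
    Differentiable ℂ Lf ∧
    (∀ s : ℂ, 3 / 2 < s.re →
      LSeriesSummable ((fun n : ℤ => (n : ℂ)) ∘ (ED (D : K)).LFunction) s ∧
        Lf s = (ED (D : K)).LSeries s) ∧
    IsTam (ED (D : K)) c ∧
    ∀ σ : K →+* ℂ, (∃ Λ : PeriodPair, Λ.g₂ = 0 ∧ Λ.g₃ = -(σ D) ^ 2) ∧
      ∀ Λ : PeriodPair, Λ.g₂ = 0 → Λ.g₃ = -(σ D) ^ 2 → ∃ ρ : ℂ,
        Lf 1 = ρ * (((2 * |((starRingEnd ℂ) Λ.ω₁ * Λ.ω₂).im| : ℝ) : ℂ) * ((∏ᶠ w, c w : ℕ) : ℂ) /
          (((Real.sqrt |(discr K : ℝ)| : ℝ) : ℂ) * (tors D : ℂ) ^ 2)) ∧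
        ∀ (Γ : Type) [LinearOrderedCommGroupWithZero Γ] (v : Valuation ℂ Γ), v 3 < 1 →
          v ρ ≤ 1 ∧ (v ρ = 1 ↔ Tri D)

end final

/-- T2+: the class has positive density, the law holds for all `D` of the class, and for at least
`1 / 2 - ε` of them both sides are units at `3`. -/
def S_T2P : Prop := ∀ (K : Type) [Field K] [NumberField K] [IsCyclotomicExtension {3} ℚ K],
  (∃ c : ℝ, 0 < c ∧ ∃ X₀ : ℕ, ∀ X : ℕ, X₀ ≤ X →
    c * X ≤ ({D : 𝓞 K | Algebra.norm ℤ D ≤ X ∧ ClsK D}.ncard : ℝ)) ∧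
  (∀ D : 𝓞 K, ClsK D → Law2 D) ∧
  ∀ ε : ℝ, 0 < ε → ∃ X₀ : ℕ, ∀ X : ℕ, X₀ ≤ X →
    (1 / 2 - ε) * ({D : 𝓞 K | Algebra.norm ℤ D ≤ X ∧ ClsK D}.ncard : ℝ) ≤
      ({D : 𝓞 K | Algebra.norm ℤ D ≤ X ∧ ClsK D ∧ Tri D}.ncard : ℝ)

/-! ### The parts -/

/-- the data of S_TRF -/
def TrfData (K : Type) [Field K] [NumberField K] (j : Ei ≃+* 𝓞 K) (D : Ei)
    (e : AlgebraicClosure K ≃+* QB) (i₀ : QB) (hi : i₀ ^ 2 + i₀ + 1 = 0) (u : QB)
    (a : GK i₀ → ZMod 3)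
    (Ψ : Pool.Agent.TH841.SH.D.Pt (ED (j D : K)) (AlgebraicClosure K) ≃+ Pt QB)
    (g : Pool.Agent.TH841.SH.D.Gal K ≃* GK i₀) : Prop :=
  Tw hi D u a ∧ (∀ z : Ei, e (algebraMap K (AlgebraicClosure K) (j z : K)) = ev i₀ hi z) ∧
    Continuous g ∧ Continuous g.symm ∧
    (∀ (σ : Pool.Agent.TH841.SH.D.Gal K) (x : AlgebraicClosure K), e (σ x) = g σ (e x)) ∧
    (∀ (x y : AlgebraicClosure K) (h), ∃ h', Ψ (Affine.Point.some x y h) =
      Affine.Point.some (e x / u ^ 2) (e y / u ^ 3) h') ∧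
    ∀ (σ : Pool.Agent.TH841.SH.D.Gal K)
      (P : Pool.Agent.TH841.SH.D.Pt (ED (j D : K)) (AlgebraicClosure K)),
      Ψ (Pool.Agent.TH841.SH.D.act (ED (j D : K)) σ.toAlgHom P) = act hi a (g σ) (Ψ P)

/-- CTK-TOR: the torsion subgroup of `E_D(K)` is finite and its `3`-primary part has order `3`. -/
def S_TORK : Prop := ∀ (K : Type) [Field K] [NumberField K] (j : Ei ≃+* 𝓞 K) (D : Ei), D ≠ 0 →
  ∀ e i₀ hi u a Ψ g, TrfData K j D e i₀ hi u a Ψ g → (∃ σ, a σ ≠ 0) →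
    Finite (AddCommGroup.torsion (ED (j D : K)).toAffine.Point) ∧
      padicValNat 3 (Nat.card (AddCommGroup.torsion (ED (j D : K)).toAffine.Point)) = 1

/-- CTK-MWC: converse of CTK-MW. -/
def S_MWC : Prop := ∀ (K : Type) [Field K] [NumberField K] (j : Ei ≃+* 𝓞 K) (D : Ei), D ≠ 0 →
  ∀ e i₀ hi u a Ψ g, TrfData K j D e i₀ hi u a Ψ g → (∃ σ, a σ ≠ 0) →
    Finite (ED (j D : K)).toAffine.Point → MwK hi a

/-- CTK-PLC: the completions of `K` and the fields `ℚ_p`. -/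
def S_PLC : Prop := ∀ (K : Type) [Field K] [NumberField K] (v : HeightOneSpectrum (𝓞 K)),
  ∃ (p : ℕ) (_ : Fact p.Prime) (Φ : AlgebraicClosure (v.adicCompletion K) ≃+* PadicAlgCl p),
    ∀ τ : Pool.Agent.TH841.SH.D.Gal (v.adicCompletion K), ∃ τ' : Au p, ∀ x, Φ (τ x) = τ' (Φ x)

/-- CTK-SHC: converse of CTK-SH. -/
def S_SHCK : Prop := S_PLC → ∀ (K : Type) [Field K] [NumberField K] (j : Ei ≃+* 𝓞 K) (D : Ei),
  D ≠ 0 → ∀ e i₀ hi u a Ψ g, TrfData K j D e i₀ hi u a Ψ g →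
    (∀ (n : ℕ) (x : Sha (ED (j D : K))), 3 ^ n • x = 0 → x = 0) → ShK hi a

end Pool.Agent.Y696.CTK
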