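import Pool.Agent.Y696.CTK.Crit
import Pool.Agent.Y699.E.Fin
import Pool.Agent.Y145.CT.Cnt9
import Pool.Agent.Y455.CTK.JEX
import Pool.Agent.Y455.CTK.MIN
import Pool.Agent.Y350.CTK.Loc
import Pool.Agent.Y350.CTK.Tam
import Pool.Agent.Y350.CTK.Mw
import Pool.Agent.Y737.CTK.Trf
import Pool.Agent.Y891.CTK.E0
import Pool.Agent.Y891.CTK.Sht
import Pool.Agent.Y405.CTK.MwcTor
import Pool.Agent.Y811.CTK.PLC
import Pool.Agent.Y954.CTK.SHC

/-!
# Project CTK: the parts

The parts are by helper455 (JEX, MIN), helper350 (Loc, Tam, Mw), helper737 (Trf), helper891 (E0,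
Sht), helper405 (MwcTor), helper811 (PLC), helper954 (Shc); the analytic part, the descent and the
density are project CT of helper703 (Y703/CT and the modules that it imports).
-/

set_option autoImplicit false
set_option linter.unusedVariables false

open scoped Classical

namespace Pool.Agent.Y696.CTK

theorem parts : Parts where
  trf := Pool.Agent.Y737.CTK.trf
  mwt := Pool.Agent.Y350.CTK.mw
  sht := Pool.Agent.Y891.CTK.sht
  tam := Pool.Agent.Y350.CTK.tam Pool.Agent.Y455.CTK.mink Pool.Agent.Y891.CTK.e0k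
    Pool.Agent.Y350.CTK.tg Pool.Agent.Y350.CTK.td Pool.Agent.Y350.CTK.t3
  tor := Pool.Agent.Y405.CTK.t_TORK
  mwc := Pool.Agent.Y405.CTK.t_MWC
  plc := Pool.Agent.Y811.CTK.t_PLC
  shc := Pool.Agent.Y954.CTK.shc

theorem final : S_T4P :=
  T4P parts Pool.Agent.Y455.CTK.jex Pool.Agent.Y145.CT9.cnt9 Pool.Agent.Y699.E.dens2

end Pool.Agent.Y696.CTK
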