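import Pool.Agent.Y703.CT.T1
import Pool.Agent.Y696.CTK.Stm2

/-!
# Project CTK: the valuation of the central value over `K`
-/

set_option autoImplicit false
set_option linter.unusedVariables false

open scoped Classical

namespace Pool.Agent.Y696.CTK

open Pool.Agent.Y692.QS (Ei w nr toC)
open Pool.Agent.Y715.T.Rec (cs)
open Pool.Agent.Y715.T.RecG (Pq)
open Pool.Agent.Y703.CT
open Pool.Agent.Y715.T.Cg (Cg z_pow)
open Pool.Agent.Y715.T.Three (lam_ne lam_lt lam_ne' lam_pos sq_three v_nine)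
open Pool.Agent.Y696 (Cur)


/-- the determinant and the kernel -/
theorem det_iff {J : Type} [Fintype J] [Nonempty J] {π : J → Ei} {e : J → ZMod 3} (hD : Dt π e)
    (h9 : ¬ (9 : ℤ) ∣ Pool.Agent.Y692.QS.nr (pD π e) - 1) :
    (Ker π e → Pool.Agent.Y715.T.Comb.D (am π (fun j => -e j)) (fun i => -rq (π i))
      Finset.univ ≠ 0) ∧
    (¬ Ker π e → Pool.Agent.Y715.T.Comb.D (am π (fun j => -e j)) (fun i => -rq (π i))
      Finset.univ = 0) := by
  have hsum : ∑ j, e j * rq (π j) ≠ 0 := (sum_ne_iff hD).1 h9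
  have hrec := Pool.Agent.Y350.CT.rec
  constructor
  · intro hk
    have hk' := hk.neg
    refine Pool.Agent.Y715.T.Comb.D_ne (ε := fun j => -e j) Finset.univ_nonempty
      (fun i _ => hD.neg.e0 i) ?_ ?_ ?_
    · intro i _ j _ hij
      unfold am
      rw [hrec (π i) (π j) (hD.pq i) (hD.pq j) (hD.nd i j hij)]
      ring
    · intro v hv i _ j _
      refine hk' v (fun j => ?_) i j
      have h1 := hv j (Finset.mem_univ j)
      rw [← h1]
      refine Finset.sum_congr rfl fun i _ => ?_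
      by_cases hij : i = j
      · rw [hij, sub_self, mul_zero, mul_zero]
      · unfold am
        rw [hrec (π i) (π j) (hD.pq i) (hD.pq j) (hD.nd i j hij)]
        ring
    · intro h1
      apply hsum
      rw [← h1]
      exact Finset.sum_congr rfl fun i _ => by ring
  · intro hk
    refine Pool.Agent.Y319.CT.t_DZ J (am π (fun j => -e j)) (fun i => -rq (π i)) (fun j => -e j)
      inferInstance (fun i => hD.neg.e0 i) ?_ ?_
    · intro i j hij
      unfold am
      rw [hrec (π i) (π j) (hD.pq i) (hD.pq j) (hD.nd i j hij)]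
      ring
    · intro hcon
      apply hk
      intro v hv
      refine hcon v fun j => ?_
      have h1 := hv j
      rw [← neg_eq_zero, ← Finset.sum_neg_distrib] at h1
      rw [← h1]
      refine Finset.sum_congr rfl fun i _ => ?_
      by_cases hij : i = j
      · rw [hij, sub_self, mul_zero, mul_zero, neg_zero]
      · unfold am
        rw [hrec (π i) (π j) (hD.pq i) (hD.pq j) (hD.nd i j hij)]
        ring

/-- the valuation of `|F(1)|²` -/
theorem val_sq {J : Type} [Fintype J] [Nonempty J] {π : J → Ei} {e : J → ZMod 3} (hD : Dt π e)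
    (h9 : ¬ (9 : ℤ) ∣ Pool.Agent.Y692.QS.nr (pD π e) - 1) :
    ∃ F : ℂ → ℂ, IsHL π (fun j => -e j) F ∧
      ∀ (Γ : Type) [LinearOrderedCommGroupWithZero Γ] (v : Valuation ℂ Γ), v 3 < 1 →
        ∀ (L : PeriodPair) (Ω : ℂ), Cur L Ω → ∃ g : Γ, g ≤ 1 ∧ (Ker π e → g = 1) ∧
          (¬ Ker π e → g < 1) ∧
          v (F 1 * (starRingEnd ℂ) (F 1) / (Ω * (starRingEnd ℂ) Ω)) * (v Pool.Agent.Y715.T.Three.lam * v Pool.Agent.Y715.T.Three.lam) =
            (v Pool.Agent.Y715.T.Three.lam * v Pool.Agent.Y715.T.Three.lam) ^ (Fintype.card J - 1) * g := by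
  obtain ⟨F, hF, hval⟩ := an_val Pool.Agent.Y715.CT.AN1b.an1b hD.neg
  obtain ⟨hd1, hd0⟩ := det_iff hD h9
  set d : ZMod 3 := Pool.Agent.Y715.T.Comb.D (am π (fun j => -e j)) (fun i => -rq (π i))
    Finset.univ with hd
  refine ⟨F, hF, ?_⟩
  intro Γ _ v hv L Ω hC
  have hv' : (v.comap (starRingEnd ℂ)) 3 < 1 := by
    rw [Valuation.comap_apply, map_ofNat]
    exact hv
  obtain ⟨s, hs, h1⟩ := hval Γ v hv L Ω hC
  obtain ⟨s', hs', h1'⟩ := hval Γ (v.comap (starRingEnd ℂ)) hv' L Ω hC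
  have h2 : (v.comap (starRingEnd ℂ)) Pool.Agent.Y715.T.Three.lam = v Pool.Agent.Y715.T.Three.lam := by
    rw [Valuation.comap_apply, conj_lam, v.map_neg]
  rw [h2] at h1'
  have h3 : (v.comap (starRingEnd ℂ)) ((starRingEnd ℂ) (F 1) / Ω) =
      v (F 1 / (starRingEnd ℂ) Ω) := by
    rw [Valuation.comap_apply, map_div₀ (starRingEnd ℂ), Complex.conj_conj]
  rw [h3] at h1'
  refine ⟨v s * (v.comap (starRingEnd ℂ)) s', ?_, fun hk => ?_, fun hk => ?_, ?_⟩
  · exact mul_le_one' hs.le hs'.le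
  · rw [hs.eq_one hv (hd1 hk), hs'.eq_one hv' (hd1 hk), one_mul]
  · rw [hd0 hk] at hs hs'
    exact mul_lt_one_of_lt_of_le hs.lt_one hs'.le
  · have e : F 1 * (starRingEnd ℂ) (F 1) / (Ω * (starRingEnd ℂ) Ω) =
        ((starRingEnd ℂ) (F 1) / Ω) * (F 1 / (starRingEnd ℂ) Ω) := by
      rw [div_mul_div_comm]
      ring
    rw [e, map_mul, mul_pow]
    calc _ = (v ((starRingEnd ℂ) (F 1) / Ω) * v Pool.Agent.Y715.T.Three.lam) * (v (F 1 / (starRingEnd ℂ) Ω) * v Pool.Agent.Y715.T.Three.lam) := by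
          ac_rfl
      _ = _ := by rw [h1, h1']; ac_rfl

end Pool.Agent.Y696.CTK
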